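import Pool.Agent.Y892.HX.Flg
import Pool.Agent.W290.FrBase

set_option autoImplicit false

/-!
# Full embeddings in semi-finite hexagons: the flag geometries of projective planes
-/

namespace Pool.Agent.Y892.HX

open Pool.Agent.W290.Fr Pool.Agent.W290 Configuration Configuration.ProjectivePlane

/-- from the limit to the geometry -/
theorem geometry_of {s : ℕ} {L : Set (Finset ℕ)} {δ : ℕ → ℕ → ℕ} (HL : Lim s L δ) (hs : 1 ≤ s) :
    (HexGraph.IG (inc L)).ediam = 6 ∧ (HexGraph.IG (inc L)).egirth = 12 ∧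
      (∀ l, {p | inc L p l}.Finite ∧ {p | inc L p l}.ncard = s + 1) ∧
      (∀ p, {l | inc L p l}.Infinite) := by
  refine ⟨HL.ediam hs, HL.egirth hs, ?_, ?_⟩
  · intro l
    have h1 : {p : ℕ | inc L p l} = (l.1 : Set ℕ) := rfl
    rw [h1]
    refine ⟨l.1.finite_toSet, ?_⟩
    rw [Set.ncard_coe_finset, HL.card l.1 l.2]
  · intro p hfin
    apply HL.inf p
    have h2 : {K | K ∈ L ∧ p ∈ K} = Subtype.val '' {l : {K // K ∈ L} | inc L p l} := by
      ext K
      constructor
      · rintro ⟨hK, hp⟩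
        exact ⟨⟨K, hK⟩, hp, rfl⟩
      · rintro ⟨l, hl, rfl⟩
        exact ⟨l.2, hl⟩
    rw [h2]
    exact hfin.image _

variable {P L : Type} [Membership P L] [ProjectivePlane P L] [Finite P] [Finite L]

omit [Finite P] [Finite L] in
lemma nonempty_flag : Nonempty (Flag P L) := by
  obtain ⟨p₁, p₂, p₃, l₁, l₂, l₃, -, -, -, h, -⟩ := ProjectivePlane.exists_config (P := P) (L := L)
  exact ⟨⟨(p₂, l₂), h⟩⟩

/-- full embeddings -/
theorem semifinite_full (hn : 5 ≤ order P L) :
    ∃ (P' L' : Type) (I : P' → L' → Prop), (HexGraph.IG I).ediam = 6 ∧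
      (HexGraph.IG I).egirth = 12 ∧
      (∀ l, {p | I p l}.Finite ∧ {p | I p l}.ncard = order P L + 1) ∧
      (∀ p, {l | I p l}.Infinite) ∧
      ∃ (φ : Flag P L → P') (ψ : P ⊕ L → L'), Function.Injective φ ∧ Function.Injective ψ ∧
        (∀ x K, I (φ x) (ψ K) ↔ flagInc x K) ∧ ∀ u K, I u (ψ K) → ∃ x, φ x = u := by
  have := nonempty_flag (P := P) (L := L)
  obtain ⟨LL, δ, HL, φ, ψ, h1, h2, h3, h4⟩ :=
    embed_full (preX_flag (P := P) (L := L)) (baseX_flag hn) (by omega)
  obtain ⟨g1, g2, g3, g4⟩ := geometry_of HL (by omega)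
  exact ⟨ℕ, {K // K ∈ LL}, inc LL, g1, g2, g3, g4, φ, ψ, h1, h2, h3, h4⟩

/-- the completed flag geometry is a base if every line gets at least three new points -/
theorem baseX_large {s : ℕ} (hs : order P L + 3 ≤ s) :
    BaseX s (XXon (flagInc (P := P) (L := L)) s) := by
  have hcard : ∀ K : P ⊕ L, {x : Flag P L | flagInc x K}.ncard ≤ s := by
    intro K; rw [ncard_flags]; omega
  have HX := preX (flagFH (P := P) (L := L)) hcard
  have hne : Nonempty (XX (flagInc (P := P) (L := L)) s) := by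
    obtain ⟨x⟩ := nonempty_flag (P := P) (L := L)
    exact ⟨XXold s x⟩
  have hside : ∀ (x : XX (flagInc (P := P) (L := L)) s) (K K' : P ⊕ L),
      XXon (flagInc (P := P) (L := L)) s x K → XXon (flagInc (P := P) (L := L)) s x K' →
      K.isLeft = K'.isLeft → K = K' := by
    intro x K K' h h' hl
    rcases XX.cases x with ⟨p, rfl⟩ | ⟨M, j, hj, rfl⟩
    · exact flag_side p K K' h h' hl
    · have h1 : M = K := h
      have h2 : M = K' := h'
      rw [← h1, ← h2]
  refine baseX_of (side := Sum.isLeft) hside ?_ HX.card (by omega) ?_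
  · intro x y K K' hne h1 h2 h3 h4
    have h0 : DD (flagFH (P := P) (L := L)) s x x = 0 := (HX.zero x x).2 rfl
    have h5 : DD (flagFH (P := P) (L := L)) s x y = 1 := by
      obtain ⟨g, hg, hgK⟩ := HX.pat x K
      have hxg : x = g := by
        by_contra hne'
        have := hgK x h1 hne'
        omega
      subst hxg
      rw [hgK y h2 hne.symm, h0]
    exact HX.uniq x y (by omega) K K' h2 h4 ⟨x, h1, by omega⟩ ⟨x, h3, by omega⟩
  · intro φ ψ hφ hψ hP hQ _ _ _ h11
    refine m0_pend (fun K => by rw [HX.card K]; omega) ?_ φ ψ hφ hψ hP hQ h11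
    intro K
    have hinj : Function.Injective (fun i : Fin 3 =>
        (XXnew (s := s) K ⟨order P L + 1 + i.val, by omega⟩
          (by rw [ncard_flags]; simp) : XX (flagInc (P := P) (L := L)) s)) := by
      intro i j hij
      have := (XXnew_inj.1 hij).2
      rw [Fin.mk.injEq] at this
      exact Fin.ext (by omega)
    have hsub : Set.range (fun i : Fin 3 =>
        (XXnew (s := s) K ⟨order P L + 1 + i.val, by omega⟩
          (by rw [ncard_flags]; simp) : XX (flagInc (P := P) (L := L)) s)) ⊆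
        {x | XXon (flagInc (P := P) (L := L)) s x K ∧
          ∀ K', XXon (flagInc (P := P) (L := L)) s x K' → K' = K} := by
      rintro _ ⟨i, rfl⟩
      refine ⟨XXon_new.2 rfl, ?_⟩
      intro K' hK'
      exact (XXon_new.1 hK').symm
    have h1 := Set.ncard_le_ncard hsub (Set.toFinite _)
    rw [← Set.image_univ, Set.ncard_image_of_injective _ hinj, Set.ncard_univ,
      Nat.card_eq_fintype_card, Fintype.card_fin] at h1
    exact h1

/-- embeddings with larger lines -/
theorem semifinite_large {s : ℕ} (hs : order P L + 3 ≤ s) :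
    ∃ (P' L' : Type) (I : P' → L' → Prop), (HexGraph.IG I).ediam = 6 ∧
      (HexGraph.IG I).egirth = 12 ∧
      (∀ l, {p | I p l}.Finite ∧ {p | I p l}.ncard = s + 1) ∧
      (∀ p, {l | I p l}.Infinite) ∧
      ∃ (φ : Flag P L → P') (ψ : P ⊕ L → L'), Function.Injective φ ∧ Function.Injective ψ ∧
        (∀ x K, I (φ x) (ψ K) ↔ flagInc x K) := by
  have hcard : ∀ K : P ⊕ L, {x : Flag P L | flagInc x K}.ncard ≤ s := by
    intro K; rw [ncard_flags]; omega
  have hne : Nonempty (XX (flagInc (P := P) (L := L)) s) := by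
    obtain ⟨x⟩ := nonempty_flag (P := P) (L := L)
    exact ⟨XXold s x⟩
  have h1n := one_lt_order P L
  obtain ⟨LL, δ, HL, φ, ψ, h1, h2, h3, h4⟩ :=
    embed_full (preX (flagFH (P := P) (L := L)) hcard) (baseX_large hs) (by omega)
  obtain ⟨g1, g2, g3, g4⟩ := geometry_of HL (by omega)
  refine ⟨ℕ, {K // K ∈ LL}, inc LL, g1, g2, g3, g4, fun x => φ (XXold s x), ψ, ?_, h2, ?_⟩
  · intro x y h
    exact XXold_inj.1 (h1 h)
  · intro x K
    exact h3 _ _

end Pool.Agent.Y892.HX
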