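import Mathlib

set_option autoImplicit false

/-!
# Full embeddings in semi-finite hexagons: matchings in partial linear spaces
-/

namespace Pool.Agent.Y892.HX

section

variable {P L : Type} (inc : P → L → Prop)
  [∀ p l, Decidable (inc p l)]

/-- the numerical inequality -/
theorem arith_expand (n m : ℤ) (hn : 5 ≤ n) (hm : 0 ≤ m) (h2 : 2 * m ≤ n ^ 2 + n + 1) :
    m * (n ^ 2 + n + 1 - m) * (m + 1 + n) <
      ((n ^ 2 + n + 1 - m) * (n - 1) ^ 2 + 4 * m) * (m + 1) := by
  rcases lt_or_ge n 7 with h7 | h7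
  · have h56 : n = 5 ∨ n = 6 := by omega
    rcases h56 with rfl | rfl
    · have : m ≤ 15 := by omega
      interval_cases m <;> norm_num
    · have : m ≤ 21 := by omega
      interval_cases m <;> norm_num
  · have hw : 0 < n ^ 2 + n + 1 - m := by nlinarith
    have h3 : n ≤ (n - 1) ^ 2 - m := by nlinarith
    have h4 : m * n < (m + 1) * ((n - 1) ^ 2 - m) := by nlinarith
    have h5 : 0 < (n ^ 2 + n + 1 - m) * ((m + 1) * ((n - 1) ^ 2 - m) - m * n) :=
      mul_pos hw (by linarith)
    nlinarith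

/-- a set of points with few neighbours has many neighbours -/
theorem expand [Fintype L]
    (huniq : ∀ p p' l l', p ≠ p' → inc p l → inc p' l → inc p l' → inc p' l' → l = l')
    (n : ℕ) (hn : 5 ≤ n) (hreg : ∀ p, (Finset.univ.filter (fun l => inc p l)).card = n + 1)
    (hv : Fintype.card L = n ^ 2 + n + 1)
    (X : Finset P) (Y : Finset L)
    (hdeg : ∀ p ∈ X, n - 1 ≤ (Y.filter (fun l => inc p l)).card) (hlt : Y.card < X.card) :
    n ^ 2 + n + 1 < 2 * Y.card := by
  classical
  obtain ⟨X', hX', hc⟩ := Finset.exists_subset_card_eq (n := Y.card + 1) (s := X) (by omega)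
  set m := Y.card with hm
  set d : L → ℕ := fun l => (X'.filter (fun p => inc p l)).card with hd
  -- double counting of flags
  have hI : ∀ Z : Finset L, ∑ l ∈ Z, d l = ∑ p ∈ X', (Z.filter (fun l => inc p l)).card := by
    intro Z
    simp only [hd, Finset.card_filter]
    exact Finset.sum_comm
  have hI1 : (n - 1) * (m + 1) ≤ ∑ l ∈ Y, d l := by
    rw [hI, ← hc]
    calc (n - 1) * X'.card = ∑ _p ∈ X', (n - 1) := by rw [Finset.sum_const, smul_eq_mul, mul_comm]
      _ ≤ _ := Finset.sum_le_sum (fun p hp => hdeg p (hX' hp))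
  have hI2 : ∑ l, d l = (n + 1) * (m + 1) := by
    rw [hI, Finset.sum_congr rfl (fun p _ => hreg p), Finset.sum_const, hc, smul_eq_mul, mul_comm]
  -- double counting of pairs
  have hJ : ∑ l, (d l * d l - d l) ≤ (m + 1) * m := by
    have h1 : ∀ l, d l * d l - d l =
        (X'.offDiag.filter (fun e => inc e.1 l ∧ inc e.2 l)).card := by
      intro l
      have : (X'.filter (fun p => inc p l)).offDiag =
          X'.offDiag.filter (fun e => inc e.1 l ∧ inc e.2 l) := by
        ext e
        simp only [Finset.mem_offDiag, Finset.mem_filter]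
        tauto
      rw [← this, Finset.offDiag_card]
    calc ∑ l, (d l * d l - d l)
        = ∑ l, (X'.offDiag.filter (fun e => inc e.1 l ∧ inc e.2 l)).card :=
          Finset.sum_congr rfl (fun l _ => h1 l)
      _ = ∑ e ∈ X'.offDiag, (Finset.univ.filter (fun l => inc e.1 l ∧ inc e.2 l)).card := by
          simp only [Finset.card_filter]
          exact Finset.sum_comm
      _ ≤ ∑ _e ∈ X'.offDiag, 1 := by
          apply Finset.sum_le_sum
          intro e he
          rw [Finset.mem_offDiag] at he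
          rw [Finset.card_le_one]
          intro l hl l' hl'
          rw [Finset.mem_filter] at hl hl'
          exact huniq e.1 e.2 l l' he.2.2 hl.2.1 hl.2.2 hl'.2.1 hl'.2.2
      _ = (m + 1) * m := by
          rw [Finset.sum_const, smul_eq_mul, mul_one, Finset.offDiag_card, hc]
          have : (m + 1) * (m + 1) = (m + 1) * m + (m + 1) := by ring
          omega
  have hsq : ∑ l, d l * d l ≤ (m + 1) * m + (n + 1) * (m + 1) := by
    have h2 : ∀ l ∈ (Finset.univ : Finset L), d l * d l ≤ (d l * d l - d l) + d l :=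
      fun l _ => by omega
    calc ∑ l, d l * d l ≤ ∑ l, ((d l * d l - d l) + d l) := Finset.sum_le_sum h2
      _ = ∑ l, (d l * d l - d l) + ∑ l, d l := Finset.sum_add_distrib
      _ ≤ _ := by rw [hI2]; omega
  have hCS : ∀ Z : Finset L, (∑ l ∈ Z, (d l : ℤ)) ^ 2 ≤ Z.card * ∑ l ∈ Z, (d l : ℤ) ^ 2 := by
    intro Z
    exact sq_sum_le_card_mul_sum_sq (s := Z) (f := fun l => (d l : ℤ))
  have hsplit1 : ∑ l ∈ Y, (d l : ℤ) + ∑ l ∈ Yᶜ, (d l : ℤ) = ((n : ℤ) + 1) * (m + 1) := by
    rw [Finset.sum_add_sum_compl]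
    exact_mod_cast hI2
  have hsplit2 : ∑ l ∈ Y, (d l : ℤ) ^ 2 + ∑ l ∈ Yᶜ, (d l : ℤ) ^ 2 ≤
      ((m : ℤ) + 1) * m + (n + 1) * (m + 1) := by
    rw [Finset.sum_add_sum_compl]
    have : ((∑ l, d l * d l : ℕ) : ℤ) ≤ (((m + 1) * m + (n + 1) * (m + 1) : ℕ) : ℤ) := by
      exact_mod_cast hsq
    push_cast at this
    calc ∑ l, (d l : ℤ) ^ 2 = ∑ l, (d l : ℤ) * (d l : ℤ) :=
          Finset.sum_congr rfl (fun l _ => by ring)
      _ ≤ _ := this
  have hcY : (Yᶜ.card : ℤ) = (n : ℤ) ^ 2 + n + 1 - m := by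
    have h1 := Finset.card_compl_add_card Y
    rw [hv] at h1
    have h2 : ((Yᶜ.card + m : ℕ) : ℤ) = ((n ^ 2 + n + 1 : ℕ) : ℤ) := by
      rw [hm]; exact_mod_cast h1
    push_cast at h2
    linarith
  have hCS1 := hCS Y
  have hCS2 := hCS Yᶜ
  rw [hcY] at hCS2
  rw [← hm] at hCS1
  by_contra hcon
  push Not at hcon
  have hconz : 2 * (m : ℤ) ≤ (n : ℤ) ^ 2 + n + 1 := by exact_mod_cast hcon
  have hnz : (5 : ℤ) ≤ n := by exact_mod_cast hn
  have hmz : (0 : ℤ) ≤ m := by positivity
  have hIz : ((n : ℤ) - 1) * (m + 1) ≤ ∑ l ∈ Y, (d l : ℤ) := by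
    have h1 : (((n - 1) * (m + 1) : ℕ) : ℤ) ≤ ((∑ l ∈ Y, d l : ℕ) : ℤ) := by exact_mod_cast hI1
    rw [Nat.cast_mul, Nat.cast_sub (by omega)] at h1
    push_cast at h1
    exact h1
  have key := arith_expand n m hnz hmz hconz
  generalize (∑ l ∈ Y, (d l : ℤ)) = I at *
  generalize (∑ l ∈ Yᶜ, (d l : ℤ)) = J at *
  generalize (∑ l ∈ Y, (d l : ℤ) ^ 2) = Q1 at *
  generalize (∑ l ∈ Yᶜ, (d l : ℤ) ^ 2) = Q2 at *
  generalize hN : (n : ℤ) = N at *
  generalize hMz : (m : ℤ) = M at *
  set w := N ^ 2 + N + 1 - M with hw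
  have hw0 : 0 < w := by nlinarith
  have hwM : M ≤ w := by linarith
  obtain ⟨t, ht⟩ : ∃ t, t = I - (N - 1) * (M + 1) := ⟨_, rfl⟩
  have ht0 : 0 ≤ t := by linarith
  have hIt : I = (N - 1) * (M + 1) + t := by linarith
  have hJt : J = 2 * (M + 1) - t := by linarith
  have h1 : w * I ^ 2 + M * J ^ 2 ≤ M * w * (Q1 + Q2) := by
    have e1 := mul_le_mul_of_nonneg_left hCS1 hw0.le
    have e2 := mul_le_mul_of_nonneg_left hCS2 hmz
    calc w * I ^ 2 + M * J ^ 2 ≤ w * (M * Q1) + M * (w * Q2) := add_le_add e1 e2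
      _ = _ := by ring
  have h2 : M * w * (Q1 + Q2) ≤ M * w * ((M + 1) * M + (N + 1) * (M + 1)) :=
    mul_le_mul_of_nonneg_left hsplit2 (mul_nonneg hmz hw0.le)
  have h3 : w * ((N - 1) * (M + 1)) ^ 2 + M * (2 * (M + 1)) ^ 2 ≤ w * I ^ 2 + M * J ^ 2 := by
    rw [hIt, hJt]
    have e1 : 0 ≤ w * t ^ 2 := by positivity
    have e2 : 0 ≤ M * t ^ 2 := by positivity
    have e3 : 0 ≤ (w * (N - 1) - 2 * M) := by nlinarith
    have e4 : 0 ≤ t * (M + 1) := by positivity
    nlinarith [mul_nonneg e3 e4]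
  have h4 : (M + 1) * ((w * (N - 1) ^ 2 + 4 * M) * (M + 1)) ≤ (M + 1) * (M * w * (M + 1 + N)) := by
    calc (M + 1) * ((w * (N - 1) ^ 2 + 4 * M) * (M + 1))
        = w * ((N - 1) * (M + 1)) ^ 2 + M * (2 * (M + 1)) ^ 2 := by ring
      _ ≤ M * w * ((M + 1) * M + (N + 1) * (M + 1)) := (h3.trans h1).trans h2
      _ = _ := by ring
  have h5 := le_of_mul_le_mul_left h4 (by linarith)
  linarith

/-- **Perfect matchings in dense parts of planes.** -/
theorem hall_plane [Nonempty L] [DecidableEq P] [DecidableEq L] [Fintype P] [Fintype L]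
    (huniq : ∀ p p' l l', p ≠ p' → inc p l → inc p' l → inc p l' → inc p' l' → l = l')
    (n : ℕ) (hn : 5 ≤ n) (hregP : ∀ p, (Finset.univ.filter (fun l => inc p l)).card = n + 1)
    (hregL : ∀ l, (Finset.univ.filter (fun p => inc p l)).card = n + 1)
    (hvP : Fintype.card P = n ^ 2 + n + 1) (hvL : Fintype.card L = n ^ 2 + n + 1)
    (WP : Finset P) (WL : Finset L) (F : P → L → Prop) [∀ p l, Decidable (F p l)]
    (hF : ∀ p l, F p l → inc p l)
    (hdP : ∀ p ∈ WP, n - 1 ≤ (WL.filter (fun l => F p l)).card)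
    (hdL : ∀ l ∈ WL, n - 1 ≤ (WP.filter (fun p => F p l)).card)
    (hcard : WP.card = WL.card) :
    ∃ m : P → L, (∀ p ∈ WP, F p (m p)) ∧ (∀ p ∈ WP, ∀ p' ∈ WP, m p = m p' → p = p') ∧
      ∀ l ∈ WL, ∃ p ∈ WP, m p = l := by
  classical
  have hall : ∀ s : Finset {p // p ∈ WP}, s.card ≤
      (s.biUnion (fun p => WL.filter (fun l => F p.1 l))).card := by
    intro s
    by_contra hcon
    push Not at hcon
    set X : Finset P := s.image Subtype.val with hX
    have hXc : X.card = s.card := Finset.card_image_of_injective _ Subtype.val_injective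
    have hXW : X ⊆ WP := by
      intro p hp
      rw [hX, Finset.mem_image] at hp
      obtain ⟨q, _, rfl⟩ := hp
      exact q.2
    set Y : Finset L := s.biUnion (fun p => WL.filter (fun l => F p.1 l)) with hY
    have hYW : Y ⊆ WL := by
      intro l hl
      rw [hY, Finset.mem_biUnion] at hl
      obtain ⟨p, _, hl⟩ := hl
      exact (Finset.mem_filter.1 hl).1
    have e1 := expand inc huniq n hn hregP hvL X Y (by
      intro p hp
      refine (hdP p (hXW hp)).trans (Finset.card_le_card ?_)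
      intro l hl
      rw [Finset.mem_filter] at hl ⊢
      refine ⟨?_, hF p l hl.2⟩
      rw [hX, Finset.mem_image] at hp
      obtain ⟨q, hq, rfl⟩ := hp
      rw [hY, Finset.mem_biUnion]
      exact ⟨q, hq, by rw [Finset.mem_filter]; exact hl⟩) (by omega)
    set X2 : Finset L := WL \ Y with hX2
    set Y2 : Finset P := X2.biUnion (fun l => WP.filter (fun p => F p l)) with hY2
    have hY2sub : Y2 ⊆ WP \ X := by
      intro p hp
      rw [hY2, Finset.mem_biUnion] at hp
      obtain ⟨l, hl, hp⟩ := hp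
      rw [Finset.mem_filter] at hp
      rw [Finset.mem_sdiff]
      refine ⟨hp.1, fun hpX => ?_⟩
      rw [hX2, Finset.mem_sdiff] at hl
      apply hl.2
      rw [hX, Finset.mem_image] at hpX
      obtain ⟨q, hq, rfl⟩ := hpX
      rw [hY, Finset.mem_biUnion]
      exact ⟨q, hq, by rw [Finset.mem_filter]; exact ⟨hl.1, hp.2⟩⟩
    have c1 : X2.card = WL.card - Y.card := Finset.card_sdiff_of_subset hYW
    have c2 : (WP \ X).card = WP.card - X.card := Finset.card_sdiff_of_subset hXW
    have c3 := Finset.card_le_card hY2sub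
    have c4 := Finset.card_le_card hXW
    have c5 := Finset.card_le_card hYW
    have hle := Finset.card_le_univ WL
    rw [hvL] at hle
    have e2 := expand (P := L) (L := P) (fun l p => inc p l)
      (fun l l' p p' hl h1 h2 h3 h4 => by
        by_contra hne
        exact hl (huniq p p' l l' hne h1 h3 h2 h4)) n hn hregL hvP X2 Y2 (by
      intro l hl
      have hlW : l ∈ WL := (Finset.mem_sdiff.1 hl).1
      refine (hdL l hlW).trans (Finset.card_le_card ?_)
      intro p hp
      rw [Finset.mem_filter] at hp ⊢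
      refine ⟨?_, hF p l hp.2⟩
      rw [hY2, Finset.mem_biUnion]
      exact ⟨l, hl, by rw [Finset.mem_filter]; exact hp⟩) (by omega)
    omega
  obtain ⟨f, hf1, hf2⟩ := (Finset.all_card_le_biUnion_card_iff_exists_injective
    (fun p : {p // p ∈ WP} => WL.filter (fun l => F p.1 l))).1 hall
  have hfF : ∀ p, F p.1 (f p) := fun p => (Finset.mem_filter.1 (hf2 p)).2
  refine ⟨fun p => if h : p ∈ WP then f ⟨p, h⟩ else Classical.arbitrary L, ?_, ?_, ?_⟩
  · intro p hp
    simp only [hp, dite_true]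
    exact hfF ⟨p, hp⟩
  · intro p hp p' hp' h
    simp only [hp, hp', dite_true] at h
    exact congrArg Subtype.val (hf1 h)
  · -- surjectivity
    have himg : (Finset.univ.image f) = WL := by
      apply Finset.eq_of_subset_of_card_le
      · intro l hl
        rw [Finset.mem_image] at hl
        obtain ⟨p, _, rfl⟩ := hl
        exact (Finset.mem_filter.1 (hf2 p)).1
      · rw [Finset.card_image_of_injective _ hf1, Finset.card_univ, Fintype.card_coe, hcard]
    intro l hl
    rw [← himg, Finset.mem_image] at hl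
    obtain ⟨p, _, rfl⟩ := hl
    exact ⟨p.1, p.2, by simp⟩

end

end Pool.Agent.Y892.HX
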