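import Pool.Agent.Y892.HX.Kon
import Pool.Agent.Y892.HX.Hall

set_option autoImplicit false

/-!
# Full embeddings in semi-finite hexagons: the flags of a projective plane as a base
-/

namespace Pool.Agent.Y892.HX

open Pool.Agent.W290.Fr Configuration Configuration.ProjectivePlane

variable {P L : Type} [Membership P L] [ProjectivePlane P L] [Finite P] [Finite L]

lemma ncard_flags (K : P ⊕ L) :
    {x : Flag P L | flagInc x K}.ncard = order P L + 1 := by
  rcases K with p | l
  · rw [← lineCount_eq (P := P) (L := L) p]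
    have e : {x : Flag P L // flagInc x (Sum.inl p)} ≃ {l : L // p ∈ l} :=
      { toFun := fun x => ⟨x.1.1.2, by
          have h : x.1.1.1 = p := x.2
          have h2 := x.1.2
          rw [h] at h2
          exact h2⟩
        invFun := fun l => ⟨⟨(p, l.1), l.2⟩, rfl⟩
        left_inv := by
          rintro ⟨⟨⟨p', l⟩, h⟩, hx⟩
          have h' : p' = p := hx
          subst h'
          rfl
        right_inv := by
          rintro ⟨l, h⟩
          rfl }
    exact Nat.card_congr e
  · rw [← pointCount_eq (P := P) (L := L) l]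
    have e : {x : Flag P L // flagInc x (Sum.inr l)} ≃ {p : P // p ∈ l} :=
      { toFun := fun x => ⟨x.1.1.1, by
          have h : x.1.1.2 = l := x.2
          have h2 := x.1.2
          rw [h] at h2
          exact h2⟩
        invFun := fun p => ⟨⟨(p.1, l), p.2⟩, rfl⟩
        left_inv := by
          rintro ⟨⟨⟨p, l'⟩, h⟩, hx⟩
          have h' : l' = l := hx
          subst h'
          rfl
        right_inv := by
          rintro ⟨l, h⟩
          rfl }
    exact Nat.card_congr e

/-- the flag geometry as a partial geometry without additional points -/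
theorem preX_flag : PreX (order P L) (flagInc (P := P) (L := L)) flagD := by
  have H := flagFH (P := P) (L := L)
  refine ⟨ncard_flags, H.symm, H.zero, H.le, ?_, H.uniq, H.col⟩
  intro x K
  obtain ⟨g, h1, -, h2⟩ := H.pat x K
  exact ⟨g, h1, h2⟩

omit [ProjectivePlane P L] [Finite P] [Finite L] in
lemma flag_side (x : Flag P L) (K K' : P ⊕ L) (h : flagInc x K) (h' : flagInc x K')
    (hs : K.isLeft = K'.isLeft) : K = K' := by
  rcases K with p | l <;> rcases K' with p' | l'
  · have e1 : x.1.1 = p := h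
    have e2 : x.1.1 = p' := h'
    rw [← e1, ← e2]
  · simp at hs
  · simp at hs
  · have e1 : x.1.2 = l := h
    have e2 : x.1.2 = l' := h'
    rw [← e1, ← e2]

omit [ProjectivePlane P L] [Finite P] [Finite L] in
lemma flag_uniq (x y : Flag P L) (K K' : P ⊕ L) (hne : x ≠ y) (h1 : flagInc x K)
    (h2 : flagInc y K) (h3 : flagInc x K') (h4 : flagInc y K') : K = K' := by
  rcases K with p | l <;> rcases K' with p' | l'
  · exact flag_side x _ _ h1 h3 rfl
  · exfalso
    have e1 : x.1.1 = p := h1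
    have e2 : y.1.1 = p := h2
    have e3 : x.1.2 = l' := h3
    have e4 : y.1.2 = l' := h4
    exact hne (Subtype.ext (Prod.ext (by rw [e1, e2]) (by rw [e3, e4])))
  · exfalso
    have e1 : x.1.2 = l := h1
    have e2 : y.1.2 = l := h2
    have e3 : x.1.1 = p' := h3
    have e4 : y.1.1 = p' := h4
    exact hne (Subtype.ext (Prod.ext (by rw [e3, e4]) (by rw [e1, e2])))
  · exact flag_side x _ _ h1 h3 rfl

section

variable (φ ψ : Flag P L → ℕ)

/-- the number of flags with the value three on a line of the flag geometry -/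
lemma cnt3 (hφ : ∀ u, φ u ≤ 3) (hP : ∀ K, PatX flagInc φ K) (K : P ⊕ L)
    (hex : ∃ x, flagInc x K ∧ φ x = 3) :
    {x : Flag P L | flagInc x K ∧ φ x = 3}.ncard = order P L := by
  obtain ⟨x, hx, hx3⟩ := hex
  have h1 := one_lt_order P L
  obtain ⟨g, hg, hg2, hgK⟩ := patX_gate (hP K) hφ hx hx3 (by rw [ncard_flags]; omega)
  have : {x : Flag P L | flagInc x K ∧ φ x = 3} = {x : Flag P L | flagInc x K} \ {g} := by
    ext y
    simp only [Set.mem_ofPred_eq, Set.mem_sdiff, Set.mem_singleton_iff]
    constructor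
    · rintro ⟨a, b⟩
      refine ⟨a, ?_⟩
      rintro rfl
      omega
    · rintro ⟨a, b⟩
      exact ⟨a, hgK y a b⟩
  rw [this, Set.ncard_sdiff_singleton_of_mem (show g ∈ {x : Flag P L | flagInc x K} from hg),
    ncard_flags]
  omega

/-- points and lines are balanced -/
lemma balanced [Fintype P] [Fintype L] (hφ : ∀ u, φ u ≤ 3) (hP : ∀ K, PatX flagInc φ K)
    [DecidablePred fun p : P => ∃ x : Flag P L, flagInc x (Sum.inl p) ∧ φ x = 3]
    [DecidablePred fun l : L => ∃ x : Flag P L, flagInc x (Sum.inr l) ∧ φ x = 3] :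
    (Finset.univ.filter (fun p : P => ∃ x : Flag P L, flagInc x (Sum.inl p) ∧ φ x = 3)).card =
      (Finset.univ.filter (fun l : L => ∃ x : Flag P L, flagInc x (Sum.inr l) ∧ φ x = 3)).card := by
  classical
  have := Fintype.ofFinite (Flag P L)
  have h1 := one_lt_order P L
  set S : Finset (Flag P L) := Finset.univ.filter (fun x => φ x = 3) with hS
  have hp : S.card = (Finset.univ.filter
      (fun p : P => ∃ x : Flag P L, flagInc x (Sum.inl p) ∧ φ x = 3)).card * order P L := by
    rw [Finset.card_eq_sum_card_fiberwise (f := fun x : Flag P L => x.1.1)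
      (t := Finset.univ.filter (fun p : P => ∃ x : Flag P L, flagInc x (Sum.inl p) ∧ φ x = 3))
      (by
        intro x hx
        rw [Finset.mem_coe, hS, Finset.mem_filter] at hx
        rw [Finset.mem_coe, Finset.mem_filter]
        exact ⟨Finset.mem_univ _, x, rfl, hx.2⟩)]
    rw [Finset.sum_const_nat (m := order P L)]
    intro p hp
    rw [Finset.mem_filter] at hp
    rw [← cnt3 φ hφ hP (Sum.inl p) hp.2, Set.ncard_eq_toFinset_card']
    congr 1
    ext x
    simp only [hS, Finset.mem_filter, Finset.mem_univ, true_and, Set.mem_toFinset,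
      Set.mem_ofPred_eq]
    exact ⟨fun h => ⟨h.2, h.1⟩, fun h => ⟨h.2, h.1⟩⟩
  have hl : S.card = (Finset.univ.filter
      (fun l : L => ∃ x : Flag P L, flagInc x (Sum.inr l) ∧ φ x = 3)).card * order P L := by
    rw [Finset.card_eq_sum_card_fiberwise (f := fun x : Flag P L => x.1.2)
      (t := Finset.univ.filter (fun l : L => ∃ x : Flag P L, flagInc x (Sum.inr l) ∧ φ x = 3))
      (by
        intro x hx
        rw [Finset.mem_coe, hS, Finset.mem_filter] at hx
        rw [Finset.mem_coe, Finset.mem_filter]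
        exact ⟨Finset.mem_univ _, x, rfl, hx.2⟩)]
    rw [Finset.sum_const_nat (m := order P L)]
    intro l hl
    rw [Finset.mem_filter] at hl
    rw [← cnt3 φ hφ hP (Sum.inr l) hl.2, Set.ncard_eq_toFinset_card']
    congr 1
    ext x
    simp only [hS, Finset.mem_filter, Finset.mem_univ, true_and, Set.mem_toFinset,
      Set.mem_ofPred_eq]
    exact ⟨fun h => ⟨h.2, h.1⟩, fun h => ⟨h.2, h.1⟩⟩
  exact Nat.eq_of_mul_eq_mul_right (by omega) (hp.symm.trans hl)

/-- the points of colour zero on the flags of a plane of order at least five -/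
theorem m0_flag (hn : 5 ≤ order P L) (hφ : ∀ u, φ u ≤ 3) (hψ : ∀ u, ψ u ≤ 3)
    (hP : ∀ K, PatX (flagInc (P := P) (L := L)) φ K)
    (hQ : ∀ K, PatX (flagInc (P := P) (L := L)) ψ K)
    (h10 : ∀ u, φ u = 1 → ψ u = 3) (h11 : ∀ u, ψ u = 1 → φ u = 3) :
    ∃ M0 : Flag P L → Prop, (∀ x, ψ x = 1 → M0 x) ∧ (∀ x, M0 x → φ x = 3 ∧ ψ x ≠ 2) ∧
        (∀ K, (∀ u, flagInc u K → ψ u ≠ 0) → ∀ x y, flagInc x K → flagInc y K →
          M0 x → M0 y → x = y) ∧
        (∀ K, (∀ u, flagInc u K → ψ u ≠ 0) → (∃ x, flagInc x K ∧ φ x = 3) →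
          ∃ x, flagInc x K ∧ M0 x) := by
  classical
  have := Fintype.ofFinite P
  have := Fintype.ofFinite L
  have := Fintype.ofFinite (Flag P L)
  set n := order P L with hndef
  have hn2 : ∀ K : P ⊕ L, 2 ≤ {x : Flag P L | flagInc x K}.ncard := by
    intro K; rw [ncard_flags]; omega
  -- on every line one of the two functions attains three
  have hcov : ∀ K : P ⊕ L, (∃ x, flagInc x K ∧ φ x = 3) ∨ ∃ x, flagInc x K ∧ ψ x = 3 := by
    intro K
    obtain ⟨g, hg, hgK⟩ := hP K
    obtain ⟨w, hw, hwg⟩ : ∃ w, flagInc w K ∧ w ≠ g := by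
      by_contra hcon
      push Not at hcon
      have h1 : {x : Flag P L | flagInc x K} ⊆ {g} := fun x hx => hcon x hx
      have h2 := Set.ncard_le_ncard h1 (Set.finite_singleton g)
      rw [Set.ncard_singleton] at h2
      have := hn2 K
      omega
    have h1 := hgK w hw hwg
    have h2 := hφ w
    have h3 : φ g = 0 ∨ φ g = 1 ∨ φ g = 2 := by omega
    rcases h3 with h3 | h3 | h3
    · exact Or.inr ⟨w, hw, h10 w (by omega)⟩
    · exact Or.inr ⟨g, hg, h10 g h3⟩
    · exact Or.inl ⟨w, hw, by omega⟩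
  let BP (θ : Flag P L → ℕ) : Finset P :=
    Finset.univ.filter (fun p : P => ∃ x : Flag P L, flagInc x (Sum.inl p) ∧ θ x = 3)
  let BL (θ : Flag P L → ℕ) : Finset L :=
    Finset.univ.filter (fun l : L => ∃ x : Flag P L, flagInc x (Sum.inr l) ∧ θ x = 3)
  have hb1 : (BP φ).card = (BL φ).card := balanced φ hφ hP
  have hb2 : (BP ψ).card = (BL ψ).card := balanced ψ hψ hQ
  have hu1 : BP φ ∪ BP ψ = Finset.univ := by
    ext p
    simp only [BP, Finset.mem_union, Finset.mem_filter, Finset.mem_univ, true_and, iff_true]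
    exact hcov (Sum.inl p)
  have hu2 : BL φ ∪ BL ψ = Finset.univ := by
    ext l
    simp only [BL, Finset.mem_union, Finset.mem_filter, Finset.mem_univ, true_and, iff_true]
    exact hcov (Sum.inr l)
  have hPL : Fintype.card P = Fintype.card L := card_points_eq_card_lines P L
  have hcardL : Fintype.card L = n ^ 2 + n + 1 := card_lines P L
  set WP := BP φ ∩ BP ψ with hWP
  set WL := BL φ ∩ BL ψ with hWL
  have hW : WP.card = WL.card := by
    have e1 := Finset.card_union_add_card_inter (BP φ) (BP ψ)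
    have e2 := Finset.card_union_add_card_inter (BL φ) (BL ψ)
    rw [hu1, Finset.card_univ] at e1
    rw [hu2, Finset.card_univ] at e2
    rw [hWP, hWL]
    omega
  have hmemWP : ∀ p, p ∈ WP ↔ (∃ x : Flag P L, flagInc x (Sum.inl p) ∧ φ x = 3) ∧
      ∃ x : Flag P L, flagInc x (Sum.inl p) ∧ ψ x = 3 := by
    intro p
    simp [hWP, BP]
  have hmemWL : ∀ l, l ∈ WL ↔ (∃ x : Flag P L, flagInc x (Sum.inr l) ∧ φ x = 3) ∧
      ∃ x : Flag P L, flagInc x (Sum.inr l) ∧ ψ x = 3 := by
    intro l
    simp [hWL, BL]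
  let F : P → L → Prop := fun p l => ∃ h : p ∈ l, φ ⟨(p, l), h⟩ = 3 ∧ ψ ⟨(p, l), h⟩ = 3
  have hFWP : ∀ p l, F p l → p ∈ WP := by
    rintro p l ⟨h, h1, h2⟩
    rw [hmemWP]
    exact ⟨⟨⟨(p, l), h⟩, rfl, h1⟩, ⟨⟨(p, l), h⟩, rfl, h2⟩⟩
  have hFWL : ∀ p l, F p l → l ∈ WL := by
    rintro p l ⟨h, h1, h2⟩
    rw [hmemWL]
    exact ⟨⟨⟨(p, l), h⟩, rfl, h1⟩, ⟨⟨(p, l), h⟩, rfl, h2⟩⟩
  -- many flags with both values three
  have hmany : ∀ K : P ⊕ L, (∃ x : Flag P L, flagInc x K ∧ φ x = 3) →
      (∃ x : Flag P L, flagInc x K ∧ ψ x = 3) →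
      n - 1 ≤ (Finset.univ.filter (fun x : Flag P L => flagInc x K ∧ φ x = 3 ∧ ψ x = 3)).card := by
    intro K ⟨x, hx, hx3⟩ ⟨y, hy, hy3⟩
    obtain ⟨g, hg, hg2, hgK⟩ := patX_gate (hP K) hφ hx hx3 (hn2 K)
    obtain ⟨h, hh, hh2, hhK⟩ := patX_gate (hQ K) hψ hy hy3 (hn2 K)
    have h1 : (Finset.univ.filter (fun x : Flag P L => flagInc x K)).card = n + 1 := by
      rw [← ncard_flags K, Set.ncard_eq_toFinset_card']
      congr 1
      ext x
      simp
    have h2 : ((Finset.univ.filter (fun x : Flag P L => flagInc x K)).erase g).erase h ⊆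
        Finset.univ.filter (fun x : Flag P L => flagInc x K ∧ φ x = 3 ∧ ψ x = 3) := by
      intro z hz
      simp only [Finset.mem_erase, Finset.mem_filter, Finset.mem_univ, true_and] at hz ⊢
      exact ⟨hz.2.2, hgK z hz.2.2 hz.2.1, hhK z hz.2.2 hz.1⟩
    have h3 := Finset.card_le_card h2
    have h4 := Finset.pred_card_le_card_erase
      (s := (Finset.univ.filter (fun x : Flag P L => flagInc x K)).erase g) (a := h)
    have h5 := Finset.pred_card_le_card_erase
      (s := (Finset.univ.filter (fun x : Flag P L => flagInc x K))) (a := g)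
    omega
  have hLne : Nonempty L := by
    by_contra hcon
    rw [not_nonempty_iff] at hcon
    rw [Fintype.card_eq_zero] at hcardL
    omega
  have hregP : ∀ p : P, (Finset.univ.filter (fun l : L => p ∈ l)).card = n + 1 := by
    intro p
    rw [hndef, ← lineCount_eq (P := P) (L := L) p, lineCount, Nat.card_eq_fintype_card,
      Fintype.card_subtype]
  have hregL : ∀ l : L, (Finset.univ.filter (fun p : P => p ∈ l)).card = n + 1 := by
    intro l
    rw [hndef, ← pointCount_eq (P := P) (L := L) l, pointCount, Nat.card_eq_fintype_card,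
      Fintype.card_subtype]
  obtain ⟨m, m1, m2, m3⟩ := hall_plane (P := P) (L := L) (fun p l => p ∈ l)
    (fun p p' l l' hne h1 h2 h3 h4 =>
      (Nondegenerate.eq_or_eq h1 h2 h3 h4).resolve_left hne) n hn hregP hregL
    (hPL.trans hcardL) hcardL WP WL F
    (fun p l h => h.1) (by
      intro p hp
      rw [hmemWP] at hp
      refine (hmany (Sum.inl p) hp.1 hp.2).trans ?_
      refine Finset.card_le_card_of_injOn (fun x : Flag P L => x.1.2) ?_ ?_
      · rintro ⟨⟨p', l⟩, h⟩ hx
        simp only [Finset.coe_filter, Finset.mem_univ, true_and, Set.mem_ofPred_eq] at hx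
        obtain ⟨h1, h2, h3⟩ := hx
        have h1' : p' = p := h1
        subst h1'
        simp only [Finset.coe_filter, Set.mem_ofPred_eq]
        exact ⟨hFWL p' l ⟨h, h2, h3⟩, h, h2, h3⟩
      · rintro ⟨⟨p', l⟩, h⟩ hx ⟨⟨p'', l'⟩, h'⟩ hx' hll
        simp only [Finset.coe_filter, Finset.mem_univ, true_and, Set.mem_ofPred_eq] at hx hx'
        have h1 : p' = p := hx.1
        have h2 : p'' = p := hx'.1
        have h3 : l = l' := hll
        subst h1 h2 h3
        rfl) (by
      intro l hl
      rw [hmemWL] at hl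
      refine (hmany (Sum.inr l) hl.1 hl.2).trans ?_
      refine Finset.card_le_card_of_injOn (fun x : Flag P L => x.1.1) ?_ ?_
      · rintro ⟨⟨p, l'⟩, h⟩ hx
        simp only [Finset.coe_filter, Finset.mem_univ, true_and, Set.mem_ofPred_eq] at hx
        obtain ⟨h1, h2, h3⟩ := hx
        have h1' : l' = l := h1
        subst h1'
        simp only [Finset.coe_filter, Set.mem_ofPred_eq]
        exact ⟨hFWP p l' ⟨h, h2, h3⟩, h, h2, h3⟩
      · rintro ⟨⟨p, l'⟩, h⟩ hx ⟨⟨p', l''⟩, h'⟩ hx' hll
        simp only [Finset.coe_filter, Finset.mem_univ, true_and, Set.mem_ofPred_eq] at hx hx'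
        have h1 : l' = l := hx.1
        have h2 : l'' = l := hx'.1
        have h3 : p = p' := hll
        subst h1 h2 h3
        rfl) hW
  refine ⟨fun x => ψ x = 1 ∨ (x.1.1 ∈ WP ∧ m x.1.1 = x.1.2), fun x h => Or.inl h, ?_, ?_, ?_⟩
  · rintro x (h | ⟨h, h'⟩)
    · exact ⟨h11 x h, by omega⟩
    · obtain ⟨k1, k2, k3⟩ := m1 x.1.1 h
      have hx : x = ⟨(x.1.1, m x.1.1), k1⟩ := Subtype.ext (Prod.ext rfl h'.symm)
      rw [hx]
      exact ⟨k2, by rw [k3]; omega⟩
  · -- at most one
    intro K hK0 x y hx hy hMx hMy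
    -- a matched flag has the value three
    have hm3 : ∀ x : Flag P L, x.1.1 ∈ WP ∧ m x.1.1 = x.1.2 → ψ x = 3 := by
      rintro x ⟨h, h'⟩
      obtain ⟨k1, k2, k3⟩ := m1 x.1.1 h
      have hx : x = ⟨(x.1.1, m x.1.1), k1⟩ := Subtype.ext (Prod.ext rfl h'.symm)
      rw [hx]
      exact k3
    obtain ⟨a, ha, haK⟩ := hQ K
    have ha0 := hK0 a ha
    have hone : ∀ z, flagInc z K → ψ z = 1 → z = a := by
      intro z hz hz1
      by_contra hne
      have := haK z hz hne
      omega
    have hno : ∀ z w, flagInc z K → flagInc w K → ψ z = 1 → ψ w = 3 → False := by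
      intro z w hz hw hz1 hw3
      have h1 := hone z hz hz1
      subst h1
      have h2 : w ≠ z := by rintro rfl; omega
      have := haK w hw h2
      omega
    rcases hMx with h | h
    · rcases hMy with h' | h'
      · rw [hone x hx h, hone y hy h']
      · exact (hno x y hx hy h (hm3 y h')).elim
    · rcases hMy with h' | h'
      · exact (hno y x hy hx h' (hm3 x h)).elim
      · rcases K with p | l
        · have e1 : x.1.1 = p := hx
          have e2 : y.1.1 = p := hy
          have e3 : x.1.1 = y.1.1 := e1.trans e2.symm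
          refine Subtype.ext (Prod.ext e3 ?_)
          rw [← h.2, ← h'.2, e3]
        · have e1 : x.1.2 = l := hx
          have e2 : y.1.2 = l := hy
          have e3 : x.1.2 = y.1.2 := e1.trans e2.symm
          refine Subtype.ext (Prod.ext ?_ e3)
          exact m2 x.1.1 h.1 y.1.1 h'.1 (by rw [h.2, h'.2, e3])
  · -- at least one
    intro K hK0 hex
    by_cases h : ∃ u, flagInc u K ∧ ψ u = 1
    · obtain ⟨u, hu, hu1⟩ := h
      exact ⟨u, hu, Or.inl hu1⟩
    · push Not at h
      have h3 : ∃ x, flagInc x K ∧ ψ x = 3 := by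
        obtain ⟨a, ha, haK⟩ := hQ K
        obtain ⟨w, hw, hwa⟩ : ∃ w, flagInc w K ∧ w ≠ a := by
          by_contra hcon
          push Not at hcon
          have h1 : {x : Flag P L | flagInc x K} ⊆ {a} := fun x hx => hcon x hx
          have h2 := Set.ncard_le_ncard h1 (Set.finite_singleton a)
          rw [Set.ncard_singleton] at h2
          have := hn2 K
          omega
        have h1 := haK w hw hwa
        have h2 := hψ w
        have h3 := hK0 a ha
        have h4 := h a ha
        exact ⟨w, hw, by omega⟩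
      rcases K with p | l
      · have hp : p ∈ WP := (hmemWP p).2 ⟨hex, h3⟩
        obtain ⟨k1, -, -⟩ := m1 p hp
        exact ⟨⟨(p, m p), k1⟩, rfl, Or.inr ⟨hp, rfl⟩⟩
      · have hl : l ∈ WL := (hmemWL l).2 ⟨hex, h3⟩
        obtain ⟨p, hp, hpl⟩ := m3 l hl
        obtain ⟨k1, -, -⟩ := m1 p hp
        exact ⟨⟨(p, m p), k1⟩, hpl, Or.inr ⟨hp, rfl⟩⟩

end

/-- the flags of a plane of order at least five are a base -/
theorem baseX_flag (hn : 5 ≤ order P L) : BaseX (order P L) (flagInc (P := P) (L := L)) :=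
  baseX_of (side := Sum.isLeft) flag_side flag_uniq ncard_flags (by omega)
    (fun φ ψ hφ hψ hP hQ _ _ h10 h11 => m0_flag φ ψ hn hφ hψ hP hQ h10 h11)

end Pool.Agent.Y892.HX
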