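import Pool.Agent.Y892.HX.R6
import Pool.Agent.TH559.LE.Bip

set_option autoImplicit false

/-!
# Full embeddings in semi-finite hexagons: bases whose lines form two classes

If every point is on at most one line of each of two classes, then the colouring problems on the base
are edge colouring problems of bipartite graphs (König), apart from the choice of the points of colour
zero.
-/

namespace Pool.Agent.Y892.HX

open Pool.Agent.W290.Fr

variable {X M : Type} {on : X → M → Prop} {side : M → Bool}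

/-- König's theorem for points on lines of two classes. -/
theorem kon [Finite X] [Finite M] (hside : ∀ x K K', on x K → on x K' → side K = side K' → K = K')
    (huniq : ∀ x y K K', x ≠ y → on x K → on y K → on x K' → on y K' → K = K')
    (S : X → Prop) (D : ℕ) (hD1 : 1 ≤ D) (hD : ∀ K, {x | on x K ∧ S x}.ncard ≤ D) :
    ∃ f : X → ℕ, (∀ x, f x < D) ∧
      ∀ K x y, on x K → on y K → x ≠ y → S x → S y → f x ≠ f y := by
  classical
  have := Fintype.ofFinite X
  have := Fintype.ofFinite M
  -- labels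
  have hlab : ∀ b : Bool, ∃ a : X → M ⊕ X, ∀ x, (∀ K, side K = b → on x K → a x = Sum.inl K) ∧
      (∀ K, a x = Sum.inl K → side K = b ∧ on x K) ∧ ∀ y, a x = Sum.inr y → y = x := by
    intro b
    have : ∀ x, ∃ a : M ⊕ X, (∀ K, side K = b → on x K → a = Sum.inl K) ∧
      (∀ K, a = Sum.inl K → side K = b ∧ on x K) ∧ ∀ y, a = Sum.inr y → y = x := by
      intro x
      by_cases h : ∃ K, side K = b ∧ on x K
      · obtain ⟨K, hK, hxK⟩ := h
        refine ⟨Sum.inl K, ?_, ?_, ?_⟩
        · intro K' hK' hxK'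
          rw [hside x K K' hxK hxK' (by rw [hK, hK'])]
        · intro K' h
          have := Sum.inl_injective h
          subst this
          exact ⟨hK, hxK⟩
        · intro y h
          cases h
      · push Not at h
        refine ⟨Sum.inr x, ?_, ?_, ?_⟩
        · intro K hK hxK
          exact absurd hxK (h K hK)
        · intro K h
          cases h
        · intro y h
          exact (Sum.inr_injective h).symm
    choose a ha using this
    exact ⟨a, ha⟩
  obtain ⟨a, ha⟩ := hlab true
  obtain ⟨b, hb⟩ := hlab false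
  have hinj : ∀ x y, a x = a y → b x = b y → x = y := by
    intro x y h1 h2
    rcases hax : a x with K | z
    · rcases hbx : b x with K' | z
      · by_contra hne
        obtain ⟨c1, c2⟩ := (ha x).2.1 K hax
        obtain ⟨c3, c4⟩ := (ha y).2.1 K (h1 ▸ hax)
        obtain ⟨d1, d2⟩ := (hb x).2.1 K' hbx
        obtain ⟨d3, d4⟩ := (hb y).2.1 K' (h2 ▸ hbx)
        have := huniq x y K K' hne c2 c4 d2 d4
        subst this
        rw [c1] at d1
        exact absurd d1 (by decide)
      · have e1 := (hb x).2.2 z hbx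
        have e2 := (hb y).2.2 z (h2 ▸ hbx)
        rw [← e1, e2]
    · have e1 := (ha x).2.2 z hax
      have e2 := (ha y).2.2 z (h1 ▸ hax)
      rw [← e1, e2]
  set E : Finset ((M ⊕ X) × (M ⊕ X)) := (Finset.univ.filter S).image (fun x => (a x, b x)) with hE
  have hmemE : ∀ x, S x → (a x, b x) ∈ E := by
    intro x hx
    rw [hE, Finset.mem_image]
    exact ⟨x, by simpa using hx, rfl⟩
  have hgen : ∀ (c : X → M ⊕ X) (bb : Bool), (∀ x, (∀ K, side K = bb → on x K → c x = Sum.inl K) ∧
      (∀ K, c x = Sum.inl K → side K = bb ∧ on x K) ∧ ∀ y, c x = Sum.inr y → y = x) →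
      ∀ u, ((Finset.univ.filter S).filter (fun x => c x = u)).card ≤ D := by
    intro c bb hc u
    rcases u with K | z
    · have h1 := hD K
      refine le_trans ?_ h1
      rw [Set.ncard_eq_toFinset_card']
      apply Finset.card_le_card
      intro x hx
      simp only [Finset.mem_filter, Finset.mem_univ, true_and] at hx
      simp only [Set.mem_toFinset, Set.mem_ofPred_eq]
      exact ⟨((hc x).2.1 K hx.2).2, hx.1⟩
    · refine le_trans ?_ hD1
      rw [Finset.card_le_one]
      intro x hx y hy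
      simp only [Finset.mem_filter, Finset.mem_univ, true_and] at hx hy
      have e1 := (hc x).2.2 z hx.2
      have e2 := (hc y).2.2 z hy.2
      rw [← e1, e2]
  have hfil : ∀ (p : (M ⊕ X) × (M ⊕ X) → Prop) [DecidablePred p],
      (E.filter p).card ≤ ((Finset.univ.filter S).filter (fun x => p (a x, b x))).card := by
    intro p _
    have : E.filter p ⊆ ((Finset.univ.filter S).filter (fun x => p (a x, b x))).image
        (fun x => (a x, b x)) := by
      intro e he
      rw [Finset.mem_filter, hE, Finset.mem_image] at he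
      obtain ⟨⟨x, hx, rfl⟩, hp⟩ := he
      rw [Finset.mem_image]
      exact ⟨x, by rw [Finset.mem_filter]; exact ⟨hx, hp⟩, rfl⟩
    exact (Finset.card_le_card this).trans Finset.card_image_le
  obtain ⟨c, hc1, hc2⟩ := Pool.Agent.TH559.LE.K1 E D
    (fun u => (hfil (fun e => e.1 = u)).trans (hgen a true ha u))
    (fun u => (hfil (fun e => e.2 = u)).trans (hgen b false hb u))
  refine ⟨fun x => if S x then c (a x, b x) else 0, ?_, ?_⟩
  · intro x
    by_cases h : S x
    · simp only [h, if_true]
      exact hc1 _ (hmemE x h)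
    · simp only [h, if_false]
      omega
  · intro K x y hx hy hne hSx hSy
    simp only [hSx, hSy, if_true]
    refine hc2 _ (hmemE x hSx) _ (hmemE y hSy) ?_ ?_
    · intro h
      have := Prod.mk.inj h
      exact hne (hinj x y this.1 this.2)
    · rcases Bool.eq_false_or_eq_true (side K) with h | h
      · left
        simp only
        rw [(ha x).1 K h hx, (ha y).1 K h hy]
      · right
        simp only
        rw [(hb x).1 K h hx, (hb y).1 K h hy]

section count

variable {s : ℕ}

lemma patX_gate {φ : X → ℕ} {K : M} (h : PatX on φ K) (hle : ∀ u, φ u ≤ 3)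
    {u : X} (hu : on u K) (hu3 : φ u = 3) (hc : 2 ≤ {x | on x K}.ncard) :
    ∃ g, on g K ∧ φ g = 2 ∧ ∀ w, on w K → w ≠ g → φ w = 3 := by
  obtain ⟨g, hg, hgK⟩ := h
  by_cases hug : u = g
  · subst hug
    exfalso
    obtain ⟨w, hw, hwu⟩ : ∃ w, on w K ∧ w ≠ u := by
      by_contra hcon
      push Not at hcon
      have : {x | on x K} ⊆ {u} := fun x hx => hcon x hx
      have := Set.ncard_le_ncard this (Set.finite_singleton u)
      rw [Set.ncard_singleton] at this
      omega
    have h1 := hgK w hw hwu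
    have h2 := hle w
    omega
  · have h1 := hgK u hu hug
    refine ⟨g, hg, by omega, ?_⟩
    intro w hw hwg
    rw [hgK w hw hwg]; omega

/-- bases with two classes of lines -/
theorem baseX_of [Finite X] [Finite M]
    (hside : ∀ x K K', on x K → on x K' → side K = side K' → K = K')
    (huniq : ∀ x y K K', x ≠ y → on x K → on y K → on x K' → on y K' → K = K')
    (hcard : ∀ K, {x | on x K}.ncard = s + 1) (hs : 2 ≤ s)
    (hM : ∀ φ ψ : X → ℕ, (∀ u, φ u ≤ 3) → (∀ u, ψ u ≤ 3) → (∀ K, PatX on φ K) →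
      (∀ K, PatX on ψ K) → (∀ u, φ u = 0 → ψ u = 2) → (∀ u, ψ u = 0 → φ u = 2) →
      (∀ u, φ u = 1 → ψ u = 3) → (∀ u, ψ u = 1 → φ u = 3) →
      ∃ M0 : X → Prop, (∀ x, ψ x = 1 → M0 x) ∧ (∀ x, M0 x → φ x = 3 ∧ ψ x ≠ 2) ∧
        (∀ K, (∀ u, on u K → ψ u ≠ 0) → ∀ x y, on x K → on y K → M0 x → M0 y → x = y) ∧
        (∀ K, (∀ u, on u K → ψ u ≠ 0) → (∃ x, on x K ∧ φ x = 3) → ∃ x, on x K ∧ M0 x)) :
    BaseX s on := by
  classical
  have hfin : ∀ (p : X → Prop), {x | p x}.Finite := fun p => Set.toFinite _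
  refine ⟨?_, ?_, ?_⟩
  · intro φ hφ hP
    obtain ⟨f, h1, h2⟩ := kon hside huniq (fun x => φ x = 3) s (by omega) (by
      intro K
      by_cases hex : ∃ u, on u K ∧ φ u = 3
      · obtain ⟨u, hu, hu3⟩ := hex
        obtain ⟨g, hg, hg2, -⟩ := patX_gate (hP K) hφ hu hu3 (by rw [hcard]; omega)
        have hsub : {x | on x K ∧ φ x = 3} ⊆ {x | on x K} \ {g} := by
          rintro x ⟨hx, hx3⟩
          refine ⟨hx, ?_⟩
          rintro rfl
          omega
        have h3 := Set.ncard_le_ncard hsub (Set.toFinite _)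
        rw [Set.ncard_sdiff_singleton_of_mem (show g ∈ {x | on x K} from hg), hcard] at h3
        simpa using h3
      · have : {x | on x K ∧ φ x = 3} = ∅ := by
          ext x
          simp only [Set.mem_ofPred_eq, Set.mem_empty_iff_false, iff_false]
          exact fun h => hex ⟨x, h⟩
        rw [this]; simp)
    exact ⟨f, h1, fun K u v hu hv huv h3 h3' => h2 K u v hu hv huv h3 h3'⟩
  · intro φ ψ hφ hψ hP hQ hφψ
    obtain ⟨f, h1, h2⟩ := kon hside huniq (fun x => φ x = 3 ∧ ψ x = 3) (s - 1) (by omega) (by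
      intro K
      by_cases hex : ∃ u, on u K ∧ φ u = 3 ∧ ψ u = 3
      · obtain ⟨u, hu, hu3, hu3'⟩ := hex
        obtain ⟨g, hg, hg2, -⟩ := patX_gate (hP K) hφ hu hu3 (by rw [hcard]; omega)
        obtain ⟨h, hh, hh2, -⟩ := patX_gate (hQ K) hψ hu hu3' (by rw [hcard]; omega)
        have hne : g ≠ h := by
          rintro rfl
          have := hφψ g (by omega)
          omega
        have hsub : {x | on x K ∧ φ x = 3 ∧ ψ x = 3} ⊆ ({x | on x K} \ {g}) \ {h} := by
          rintro x ⟨hx, hx3, hx3'⟩
          refine ⟨⟨hx, ?_⟩, ?_⟩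
          · rintro rfl
            omega
          · rintro rfl
            omega
        have h3 := Set.ncard_le_ncard hsub (Set.toFinite _)
        rw [Set.ncard_sdiff_singleton_of_mem (show h ∈ {x | on x K} \ {g} from
            ⟨hh, fun h' => hne (by simpa using h'.symm)⟩),
          Set.ncard_sdiff_singleton_of_mem (show g ∈ {x | on x K} from hg), hcard] at h3
        simpa using h3
      · have : {x | on x K ∧ φ x = 3 ∧ ψ x = 3} = ∅ := by
          ext x
          simp only [Set.mem_ofPred_eq, Set.mem_empty_iff_false, iff_false]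
          exact fun h => hex ⟨x, h⟩
        rw [this]; simp)
    exact ⟨f, h1, fun K u v hu hv huv h3 h3' h4 h4' => h2 K u v hu hv huv ⟨h3, h3'⟩ ⟨h4, h4'⟩⟩
  · intro φ ψ hφ hψ hP hQ h00 h01 h10 h11
    obtain ⟨M0, m1, m2, m3, m4⟩ := hM φ ψ hφ hψ hP hQ h00 h01 h10 h11
    obtain ⟨f, h1, h2⟩ := kon hside huniq (fun x => φ x = 3 ∧ ¬ M0 x) (s - 1) (by omega) (by
      intro K
      by_cases hz : ∀ u, on u K → ψ u ≠ 0
      · by_cases hex : ∃ u, on u K ∧ φ u = 3
        · obtain ⟨z, hz1, hz2⟩ := m4 K hz hex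
          obtain ⟨u, hu, hu3⟩ := hex
          obtain ⟨g, hg, hg2, -⟩ := patX_gate (hP K) hφ hu hu3 (by rw [hcard]; omega)
          have hne : g ≠ z := by
            rintro rfl
            have := (m2 g hz2).1
            omega
          have hsub : {x | on x K ∧ φ x = 3 ∧ ¬ M0 x} ⊆ ({x | on x K} \ {g}) \ {z} := by
            rintro x ⟨hx, hx3, hx3'⟩
            refine ⟨⟨hx, ?_⟩, ?_⟩
            · rintro rfl
              omega
            · rintro rfl
              exact hx3' hz2
          have h3 := Set.ncard_le_ncard hsub (Set.toFinite _)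
          rw [Set.ncard_sdiff_singleton_of_mem (show z ∈ {x | on x K} \ {g} from
              ⟨hz1, fun h' => hne (by simpa using h'.symm)⟩),
            Set.ncard_sdiff_singleton_of_mem (show g ∈ {x | on x K} from hg), hcard] at h3
          simpa using h3
        · have : {x | on x K ∧ φ x = 3 ∧ ¬ M0 x} = ∅ := by
            ext x
            simp only [Set.mem_ofPred_eq, Set.mem_empty_iff_false, iff_false]
            exact fun h => hex ⟨x, h.1, h.2.1⟩
          rw [this]; simp
      · push Not at hz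
        obtain ⟨r, hr, hr0⟩ := hz
        have : {x | on x K ∧ φ x = 3 ∧ ¬ M0 x} = ∅ := by
          ext x
          simp only [Set.mem_ofPred_eq, Set.mem_empty_iff_false, iff_false]
          rintro ⟨hx, hx3, hxM⟩
          obtain ⟨g, hg, hgK⟩ := hQ K
          have hrg : r = g := by
            by_contra hne
            have := hgK r hr hne
            omega
          subst hrg
          have hxr : x ≠ r := by
            rintro rfl
            have := h01 x hr0
            omega
          exact hxM (m1 x (by rw [hgK x hx hxr, hr0]))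
        rw [this]; simp)
    refine ⟨fun x => if M0 x then 0 else if φ x = 3 then f x + 1 else 0, ?_, ?_⟩
    · intro u
      refine ⟨?_, fun h3 => ⟨fun h => ?_, fun h => ?_⟩⟩
      · have := h1 u
        simp only
        split_ifs <;> omega
      · simp [m1 u h]
      · have hnot : ¬ M0 u := fun hM => (m2 u hM).2 h
        simp [hnot, h3]
    · intro K hK u v hu hv huv h3 h3'
      by_cases hMu : M0 u <;> by_cases hMv : M0 v
      · exact absurd (m3 K hK u v hu hv hMu hMv) huv
      · simp [hMu, hMv, h3']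
      · simp [hMu, hMv, h3]
      · simp only [hMu, hMv, h3, h3', if_true, if_false]
        have := h2 K u v hu hv huv ⟨h3, hMu⟩ ⟨h3', hMv⟩
        omega

end count

/-- the points of colour zero when every line has at least three points on no other line -/
theorem m0_pend [Finite X] [Nonempty X] (hcard : ∀ K, 2 ≤ {x | on x K}.ncard)
    (hpend : ∀ K, 3 ≤ {x | on x K ∧ ∀ K', on x K' → K' = K}.ncard)
    (φ ψ : X → ℕ) (hφ : ∀ u, φ u ≤ 3) (hψ : ∀ u, ψ u ≤ 3) (hP : ∀ K, PatX on φ K)
    (hQ : ∀ K, PatX on ψ K) (h11 : ∀ u, ψ u = 1 → φ u = 3) :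
    ∃ M0 : X → Prop, (∀ x, ψ x = 1 → M0 x) ∧ (∀ x, M0 x → φ x = 3 ∧ ψ x ≠ 2) ∧
        (∀ K, (∀ u, on u K → ψ u ≠ 0) → ∀ x y, on x K → on y K → M0 x → M0 y → x = y) ∧
        (∀ K, (∀ u, on u K → ψ u ≠ 0) → (∃ x, on x K ∧ φ x = 3) → ∃ x, on x K ∧ M0 x) := by
  classical
  -- the lines which need a point
  have hz : ∀ K, (∀ u, on u K → ψ u ≠ 0) → (∀ u, on u K → ψ u ≠ 1) → (∃ x, on x K ∧ φ x = 3) →
      ∃ z, on z K ∧ (∀ K', on z K' → K' = K) ∧ φ z = 3 ∧ ψ z = 3 := by
    intro K h0 h1 ⟨x, hx, hx3⟩
    obtain ⟨g, hg, hg2, hgK⟩ := patX_gate (hP K) hφ hx hx3 (hcard K)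
    obtain ⟨a, ha, haK⟩ := hQ K
    obtain ⟨z, ⟨hz1, hz2⟩, hz3⟩ : ∃ z ∈ {x | on x K ∧ ∀ K', on x K' → K' = K},
        z ∉ ({g, a} : Set X) := by
      refine Set.exists_mem_notMem_of_ncard_lt_ncard ?_ (Set.toFinite _)
      have h4 : ({g, a} : Set X).ncard ≤ 2 :=
        (Set.ncard_insert_le g {a}).trans (by rw [Set.ncard_singleton])
      have h5 := hpend K
      omega
    simp only [Set.mem_insert_iff, Set.mem_singleton_iff, not_or] at hz3
    refine ⟨z, hz1, hz2, hgK z hz1 hz3.1, ?_⟩
    have h6 := haK z hz1 hz3.2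
    have h7 := h0 a ha
    have h8 := h1 a ha
    have h9 := hψ z
    omega
  choose! z z1 z2 z3 z4 using hz
  refine ⟨fun x => ψ x = 1 ∨ ∃ K, (∀ u, on u K → ψ u ≠ 0) ∧ (∀ u, on u K → ψ u ≠ 1) ∧
    (∃ x, on x K ∧ φ x = 3) ∧ x = z K, fun x h => Or.inl h, ?_, ?_, ?_⟩
  · rintro x (h | ⟨K, k0, k1, k3, rfl⟩)
    · exact ⟨h11 x h, by omega⟩
    · exact ⟨z3 K k0 k1 k3, by rw [z4 K k0 k1 k3]; omega⟩
  · intro K hK0 x y hx hy hMx hMy
    rcases hMx with h | ⟨K1, k0, k1, k3, rfl⟩
    · rcases hMy with h' | ⟨K2, j0, j1, j3, rfl⟩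
      · obtain ⟨a, ha, haK⟩ := hQ K
        have e1 : x = a := by
          by_contra hne
          have h6 := haK x hx hne
          have h7 := hK0 a ha
          omega
        have e2 : y = a := by
          by_contra hne
          have h6 := haK y hy hne
          have h7 := hK0 a ha
          omega
        rw [e1, e2]
      · have := z2 K2 j0 j1 j3 K hy
        subst this
        exact absurd h (j1 x hx)
    · have hKK := z2 K1 k0 k1 k3 K hx
      subst hKK
      rcases hMy with h' | ⟨K2, j0, j1, j3, rfl⟩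
      · exact absurd h' (k1 y hy)
      · rw [z2 K2 j0 j1 j3 K hy]
  · intro K hK0 hex
    by_cases h : ∃ u, on u K ∧ ψ u = 1
    · obtain ⟨u, hu, hu1⟩ := h
      exact ⟨u, hu, Or.inl hu1⟩
    · push Not at h
      exact ⟨z K, z1 K hK0 h hex, Or.inr ⟨K, hK0, h, hex, rfl⟩⟩

end Pool.Agent.Y892.HX
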