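import Pool.Agent.W290.FrFlag
import Pool.Agent.W290.FrE2

set_option autoImplicit false

/-!
# Full embeddings in semi-finite hexagons: relative solvability

The construction of `Pool.Agent.W290.Fr` (free construction of hexagons with finite lines), relative to
a base of arbitrary full lines.  `SolR N n0 n L0 L`: a solution of a system of constraints on the base
(points `< n0`, lines `L0`) extends to the whole partial geometry.
-/

namespace Pool.Agent.Y892.HX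

open Pool.Agent.W290.Fr

def SolR (N n0 n : ℕ) (L0 L : Set (Finset ℕ)) : Prop :=
  ∀ (V : ℕ → ℕ → Prop) (C : Finset ℕ → ℕ → ℕ → ℕ → ℕ → Prop) (f0 : ℕ → ℕ),
    (∀ K ∈ L, ∀ Q ⊆ K, Q.card ≤ N → ∀ g : ℕ → ℕ, (∀ u ∈ Q, V u (g u)) →
      (∀ u ∈ Q, ∀ v ∈ Q, u ≠ v → C K u v (g u) (g v)) →
      ∃ g' : ℕ → ℕ, (∀ u ∈ Q, g' u = g u) ∧ (∀ u ∈ K, V u (g' u)) ∧
        ∀ u ∈ K, ∀ v ∈ K, u ≠ v → C K u v (g' u) (g' v)) →
    (∀ x < n, ∀ Z : Finset (Finset ℕ × ℕ), Z.card ≤ N →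
      (∀ z ∈ Z, z.1 ∈ L ∧ x ∈ z.1 ∧ z.2 ∈ z.1 ∧ z.2 ≠ x) → ∀ g : ℕ → ℕ,
      (∀ z ∈ Z, V z.2 (g z.2)) →
      ∃ a, V x a ∧ ∀ z ∈ Z, C z.1 x z.2 a (g z.2) ∧ C z.1 z.2 x (g z.2) a) →
    (∀ u < n0, V u (f0 u)) →
    (∀ K ∈ L0, ∀ u ∈ K, ∀ v ∈ K, u ≠ v → C K u v (f0 u) (f0 v)) →
    ∃ f : ℕ → ℕ, (∀ u < n0, f u = f0 u) ∧ (∀ u < n, V u (f u)) ∧
      ∀ K ∈ L, ∀ u ∈ K, ∀ v ∈ K, u ≠ v → C K u v (f u) (f v)

theorem SolR.pend {N n0 n : ℕ} {L0 L : Set (Finset ℕ)} (h : SolR N n0 n L0 L)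
    (hn0 : n0 ≤ n) (hL : ∀ K ∈ L, ∀ u ∈ K, u < n)
    (hN : 1 ≤ N) (k y : ℕ) (M : Finset ℕ) (hyn : y < n) (hyM : y ∈ M)
    (hM : ∀ u ∈ M, u < n → u = y) (hcov : ∀ u, n ≤ u → u < n + k → u ∈ M) :
    SolR N n0 (n + k) L0 (insert M L) := by
  intro V C f0 hcomp hfree hV0 hC0
  obtain ⟨f, hf0, hf1, hf2⟩ := h V C f0 (fun K hK => hcomp K (Or.inr hK)) (by
    intro x hx Z hZ hZ' g hg
    exact hfree x (by omega) Z hZ (fun z hz => ⟨Or.inr (hZ' z hz).1, (hZ' z hz).2⟩) g hg) hV0 hC0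
  obtain ⟨g, hg1, hg2, hg3⟩ := hcomp M (Or.inl rfl) {y} (by simpa using hyM)
    (by simpa using hN) f (by simpa using hf1 y hyn) (by
      intro u hu v hv huv
      simp only [Finset.mem_singleton] at hu hv
      exact absurd (hu.trans hv.symm) huv)
  have hgy : g y = f y := hg1 y (by simp)
  set F : ℕ → ℕ := fun u => if u < n then f u else g u with hF
  have hFM : ∀ u ∈ M, F u = g u := by
    intro u hu
    by_cases hun : u < n
    · rw [hM u hu hun]; simp [hF, hyn, hgy]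
    · simp [hF, hun]
  refine ⟨F, ?_, ?_, ?_⟩
  · intro u hu
    have hun : u < n := by omega
    simp only [hF, hun, if_true]
    exact hf0 u hu
  · intro u hu
    by_cases hun : u < n
    · simpa [hF, hun] using hf1 u hun
    · rw [hFM u (hcov u (by omega) hu)]
      exact hg2 u (hcov u (by omega) hu)
  · rintro K (rfl | hK) u hu v hv huv
    · rw [hFM u hu, hFM v hv]
      exact hg3 u hu v hv huv
    · have h1 := hL K hK u hu
      have h2 := hL K hK v hv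
      simpa [hF, h1, h2] using hf2 K hK u hu v hv huv

theorem SolR.ear {N n0 n : ℕ} {L0 L : Set (Finset ℕ)} (h : SolR N n0 n L0 L)
    (hn0 : n0 ≤ n) (hL : ∀ K ∈ L, ∀ u ∈ K, u < n)
    (hN : 2 ≤ N) (k y r e : ℕ) (M₁ M₂ : Finset ℕ) (hyn : y < n) (hrn : r < n) (hen : n ≤ e)
    (hek : e < n + k) (hy : y ∈ M₁) (he₁ : e ∈ M₁) (hr : r ∈ M₂) (he₂ : e ∈ M₂)
    (hM₁ : ∀ u ∈ M₁, u < n → u = y) (hM₂ : ∀ u ∈ M₂, u < n → u = r)
    (h12 : ∀ u ∈ M₁, u ∈ M₂ → u = e)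
    (hcov : ∀ u, n ≤ u → u < n + k → u ∈ M₁ ∨ u ∈ M₂) :
    SolR N n0 (n + k) L0 (insert M₂ (insert M₁ L)) := by
  classical
  intro V C f0 hcomp hfree hV0 hC0
  obtain ⟨f, hf0, hf1, hf2⟩ := h V C f0 (fun K hK => hcomp K (Or.inr (Or.inr hK))) (by
    intro x hx Z hZ hZ' g hg
    exact hfree x (by omega) Z hZ (fun z hz => ⟨Or.inr (Or.inr (hZ' z hz).1), (hZ' z hz).2⟩) g hg)
    hV0 hC0
  obtain ⟨a, ha1, ha2⟩ := hfree e hek {(M₁, y), (M₂, r)} (Finset.card_le_two.trans hN) (by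
    intro z hz
    simp only [Finset.mem_insert, Finset.mem_singleton] at hz
    rcases hz with rfl | rfl
    · exact ⟨Or.inr (Or.inl rfl), he₁, hy, by simp only; omega⟩
    · exact ⟨Or.inl rfl, he₂, hr, by simp only; omega⟩) f (by
    intro z hz
    simp only [Finset.mem_insert, Finset.mem_singleton] at hz
    rcases hz with rfl | rfl
    · exact hf1 y hyn
    · exact hf1 r hrn)
  have hay := ha2 (M₁, y) (by simp)
  have har := ha2 (M₂, r) (by simp)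
  simp only at hay har
  set f' : ℕ → ℕ := Function.update f e a with hf'
  have hf'e : f' e = a := by simp [hf']
  have hf'o : ∀ u, u < n → f' u = f u := by
    intro u hu
    rw [hf', Function.update_of_ne (by omega)]
  have hcompM : ∀ (M : Finset ℕ) (z : ℕ), M ∈ insert M₂ (insert M₁ L) → z < n → z ∈ M → e ∈ M →
      C M e z a (f z) ∧ C M z e (f z) a → ∃ g : ℕ → ℕ, g z = f z ∧ g e = a ∧
      (∀ u ∈ M, V u (g u)) ∧ ∀ u ∈ M, ∀ v ∈ M, u ≠ v → C M u v (g u) (g v) := by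
    intro M z hM hz hzM heM hC
    obtain ⟨g, hg1, hg2, hg3⟩ := hcomp M hM {z, e} (by
      intro u hu
      simp only [Finset.mem_insert, Finset.mem_singleton] at hu
      rcases hu with rfl | rfl <;> assumption) (Finset.card_le_two.trans hN) f' (by
      intro u hu
      simp only [Finset.mem_insert, Finset.mem_singleton] at hu
      rcases hu with rfl | rfl
      · rw [hf'o _ hz]; exact hf1 _ hz
      · rw [hf'e]; exact ha1) (by
      intro u hu v hv huv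
      simp only [Finset.mem_insert, Finset.mem_singleton] at hu hv
      rcases hu with rfl | rfl <;> rcases hv with rfl | rfl
      · exact absurd rfl huv
      · rw [hf'o _ hz, hf'e]; exact hC.2
      · rw [hf'o _ hz, hf'e]; exact hC.1
      · exact absurd rfl huv)
    refine ⟨g, ?_, ?_, hg2, hg3⟩
    · rw [hg1 z (by simp), hf'o z hz]
    · rw [hg1 e (by simp), hf'e]
  obtain ⟨g₁, a1, a2, a3, a4⟩ := hcompM M₁ y (Or.inr (Or.inl rfl)) hyn hy he₁ hay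
  obtain ⟨g₂, b1, b2, b3, b4⟩ := hcompM M₂ r (Or.inl rfl) hrn hr he₂ har
  set F : ℕ → ℕ := fun u => if u < n then f u else if u ∈ M₁ then g₁ u else g₂ u with hF
  have hF₁ : ∀ u ∈ M₁, F u = g₁ u := by
    intro u hu
    by_cases hun : u < n
    · rw [hM₁ u hu hun]; simp [hF, hyn, a1]
    · simp [hF, hun, hu]
  have hF₂ : ∀ u ∈ M₂, F u = g₂ u := by
    intro u hu
    by_cases hun : u < n
    · rw [hM₂ u hu hun]; simp [hF, hrn, b1]
    · by_cases hu1 : u ∈ M₁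
      · rw [h12 u hu1 hu]
        have : ¬ e < n := by omega
        simp [hF, this, he₁, a2, b2]
      · simp [hF, hun, hu1]
  refine ⟨F, ?_, ?_, ?_⟩
  · intro u hu
    have hun : u < n := by omega
    simp only [hF, hun, if_true]
    exact hf0 u hu
  · intro u hu
    by_cases hun : u < n
    · simpa [hF, hun] using hf1 u hun
    · rcases hcov u (by omega) hu with h | h
      · rw [hF₁ u h]; exact a3 u h
      · rw [hF₂ u h]; exact b3 u h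
  · rintro K (rfl | rfl | hK) u hu v hv huv
    · rw [hF₂ u hu, hF₂ v hv]
      exact b4 u hu v hv huv
    · rw [hF₁ u hu, hF₁ v hv]
      exact a4 u hu v hv huv
    · have h1 := hL K hK u hu
      have h2 := hL K hK v hv
      simpa [hF, h1, h2] using hf2 K hK u hu v hv huv

/-- the colouring problems which have to be solved on the base -/
structure BaseOK (s n0 : ℕ) (L0 : Set (Finset ℕ)) : Prop where
  lt : ∀ K ∈ L0, ∀ u ∈ K, u < n0
  one : ∀ φ : ℕ → ℕ, (∀ u < n0, φ u ≤ 3) → (∀ K ∈ L0, Pat φ K) →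
    ∃ f : ℕ → ℕ, (∀ u < n0, f u < s) ∧
      ∀ K ∈ L0, ∀ u ∈ K, ∀ v ∈ K, u ≠ v → φ u = 3 → φ v = 3 → f u ≠ f v
  two : ∀ φ ψ : ℕ → ℕ, (∀ u < n0, φ u ≤ 3) → (∀ u < n0, ψ u ≤ 3) → (∀ K ∈ L0, Pat φ K) →
    (∀ K ∈ L0, Pat ψ K) → (∀ u < n0, φ u = ψ u → φ u = 3) →
    ∃ f : ℕ → ℕ, (∀ u < n0, f u < s - 1) ∧
      ∀ K ∈ L0, ∀ u ∈ K, ∀ v ∈ K, u ≠ v → φ u = 3 → ψ u = 3 → φ v = 3 → ψ v = 3 → f u ≠ f v
  three : ∀ φ ψ : ℕ → ℕ, (∀ u < n0, φ u ≤ 3) → (∀ u < n0, ψ u ≤ 3) → (∀ K ∈ L0, Pat φ K) →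
    (∀ K ∈ L0, Pat ψ K) → (∀ u < n0, φ u = 0 → ψ u = 2) → (∀ u < n0, ψ u = 0 → φ u = 2) →
    (∀ u < n0, φ u = 1 → ψ u = 3) → (∀ u < n0, ψ u = 1 → φ u = 3) →
    ∃ f : ℕ → ℕ, (∀ u < n0, f u < s ∧ (φ u = 3 → (ψ u = 1 → f u = 0) ∧ (ψ u = 2 → f u ≠ 0))) ∧
      ∀ K ∈ L0, (∀ u ∈ K, ψ u ≠ 0) → ∀ u ∈ K, ∀ v ∈ K, u ≠ v → φ u = 3 → φ v = 3 → f u ≠ f v

/-- a state of the construction over a base -/
structure St' (s n0 : ℕ) (L0 : Set (Finset ℕ)) (n : ℕ) (L : Set (Finset ℕ)) (δ : ℕ → ℕ → ℕ) :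
    Prop where
  pre : Pre s n L δ
  col : Col n L δ
  le0 : n0 ≤ n
  sub : L0 ⊆ L
  sol : SolR 2 n0 n L0 L

end Pool.Agent.Y892.HX
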