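import Pool.Agent.Y892.HX.R4
import Pool.Agent.W290.FrLimit

set_option autoImplicit false

/-!
# Full embeddings in semi-finite hexagons: the limit

Adapted from `Pool.Agent.W290.FrLimit`.
-/

namespace Pool.Agent.Y892.HX

open Pool.Agent.W290.Fr

/-- bundled states -/
structure State' (s n0 : ℕ) (L0 : Set (Finset ℕ)) where
  n : ℕ
  L : Set (Finset ℕ)
  δ : ℕ → ℕ → ℕ
  st : St' s n0 L0 n L δ

/-- extension of states -/
structure State'.Ext {s n0 : ℕ} {L0 : Set (Finset ℕ)} (T T' : State' s n0 L0) : Prop where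
  n : T.n ≤ T'.n
  L : T.L ⊆ T'.L
  δ : ∀ x z, x < T.n → z < T.n → T'.δ x z = T.δ x z

lemma State'.Ext.refl {s n0 : ℕ} {L0 : Set (Finset ℕ)} (T : State' s n0 L0) : T.Ext T :=
  ⟨le_rfl, fun _ h => h, fun _ _ _ _ => rfl⟩

lemma State'.Ext.trans {s n0 : ℕ} {L0 : Set (Finset ℕ)} {T T' T'' : State' s n0 L0} (h : T.Ext T') (h' : T'.Ext T'') :
    T.Ext T'' :=
  ⟨h.n.trans h'.n, h.L.trans h'.L, fun x z hx hz => by
    have := h.n
    rw [h'.δ x z (by omega) (by omega), h.δ x z hx hz]⟩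

/-- a new line through every point -/
lemma State'.step1 {s n0 : ℕ} {L0 : Set (Finset ℕ)} (B : BaseOK s n0 L0) (hs : 2 < s) (T : State' s n0 L0) {a : ℕ} (ha : a < T.n) :
    ∃ T' : State' s n0 L0, T.Ext T' ∧ T.n < T'.n ∧ ∃ K ∈ T'.L, a ∈ K ∧ K ∉ T.L := by
  obtain ⟨δ', h, hext⟩ := T.st.E1 B hs ha
  refine ⟨⟨_, _, δ', h⟩, ⟨by simp, fun K hK => Or.inr hK, hext⟩, by simp; omega,
    line1 T.n s a, Or.inl rfl, by rw [mem_line1]; omega, ?_⟩
  intro hK
  have := T.st.pre.lt _ hK T.n (by rw [mem_line1]; omega)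
  omega

/-- a common neighbour for points at distance two -/
lemma State'.step2 {s n0 : ℕ} {L0 : Set (Finset ℕ)} (B : BaseOK s n0 L0) (hs : 4 ≤ s) (T : State' s n0 L0) {a b : ℕ}
    (ha : a < T.n) (hb : b < T.n) (h2 : T.δ a b = 2) :
    ∃ T' : State' s n0 L0, T.Ext T' ∧ ∃ g < T'.n, T'.δ a g = 1 ∧ T'.δ b g = 1 := by
  by_cases hex : ∃ g < T.n, T.δ a g = 1 ∧ T.δ b g = 1
  · exact ⟨T, State'.Ext.refl T, hex⟩
  · push Not at hex
    have U : Uns T.n T.δ a b := ⟨ha, hb, h2, fun g hg h h' => hex g hg h h'⟩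
    obtain ⟨δ', h, hext, hg⟩ := T.st.E2 B hs U
    exact ⟨⟨_, _, δ', h⟩, ⟨by simp; omega, fun K hK => Or.inr (Or.inr hK), hext⟩, hg⟩

lemma State'.step {s n0 : ℕ} {L0 : Set (Finset ℕ)} (B : BaseOK s n0 L0) (hs : 4 ≤ s) (T : State' s n0 L0) (hT : 0 < T.n)
    (a b : ℕ) : ∃ T' : State' s n0 L0, T.Ext T' ∧ T.n < T'.n ∧
      (a < T.n → ∃ K ∈ T'.L, a ∈ K ∧ K ∉ T.L) ∧
      (a < T.n → b < T.n → T.δ a b = 2 → ∃ g < T'.n, T'.δ a g = 1 ∧ T'.δ b g = 1) := by
  obtain ⟨T₁, h1, hlt, hK⟩ : ∃ T₁ : State' s n0 L0, T.Ext T₁ ∧ T.n < T₁.n ∧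
      (a < T.n → ∃ K ∈ T₁.L, a ∈ K ∧ K ∉ T.L) := by
    by_cases ha : a < T.n
    · obtain ⟨T₁, h1, h2, h3⟩ := T.step1 B (by omega) ha
      exact ⟨T₁, h1, h2, fun _ => h3⟩
    · obtain ⟨T₁, h1, h2, h3⟩ := T.step1 B (by omega) hT
      exact ⟨T₁, h1, h2, fun h => absurd h ha⟩
  by_cases hab : a < T.n ∧ b < T.n ∧ T.δ a b = 2
  · obtain ⟨ha, hb, h2⟩ := hab
    obtain ⟨T₂, h3, h4⟩ := T₁.step2 B hs (a := a) (b := b) (by omega) (by omega)
      (by rw [h1.δ a b ha hb, h2])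
    have := h3.n
    refine ⟨T₂, h1.trans h3, by omega, ?_, fun _ _ _ => h4⟩
    intro ha
    obtain ⟨K, hK1, hK2⟩ := hK ha
    exact ⟨K, h3.L hK1, hK2⟩
  · exact ⟨T₁, h1, hlt, hK, fun ha hb h2 => absurd ⟨ha, hb, h2⟩ hab⟩

theorem State'.exists_lim {s n0 : ℕ} {L0 : Set (Finset ℕ)} (B : BaseOK s n0 L0) (hs : 4 ≤ s) (T₀ : State' s n0 L0)
    (hT₀ : 0 < T₀.n) : ∃ (L : Set (Finset ℕ)) (δ : ℕ → ℕ → ℕ), Lim s L δ ∧ T₀.L ⊆ L ∧
      ∀ x z, x < T₀.n → z < T₀.n → δ x z = T₀.δ x z := by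
  classical
  -- one step, on states with at least one point
  have hstep : ∀ (T : {T : State' s n0 L0 // 0 < T.n}) (ab : ℕ × ℕ),
      ∃ T' : {T : State' s n0 L0 // 0 < T.n}, T.1.Ext T'.1 ∧ T.1.n < T'.1.n ∧
      (ab.1 < T.1.n → ∃ K ∈ T'.1.L, ab.1 ∈ K ∧ K ∉ T.1.L) ∧
      (ab.1 < T.1.n → ab.2 < T.1.n → T.1.δ ab.1 ab.2 = 2 →
        ∃ g < T'.1.n, T'.1.δ ab.1 g = 1 ∧ T'.1.δ ab.2 g = 1) := by
    intro T ab
    obtain ⟨T', h1, h2, h3, h4⟩ := T.1.step B hs T.2 ab.1 ab.2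
    exact ⟨⟨T', by omega⟩, h1, h2, h3, h4⟩
  choose nxt hn1 hn2 hn3 hn4 using hstep
  let task : ℕ → ℕ × ℕ := fun k => Nat.unpair (Nat.unpair k).1
  let T : ℕ → {T : State' s n0 L0 // 0 < T.n} := fun k =>
    Nat.rec ⟨T₀, hT₀⟩ (fun k T => nxt T (task k)) k
  have hT0 : T 0 = ⟨T₀, hT₀⟩ := rfl
  have hTs : ∀ k, T (k + 1) = nxt (T k) (task k) := fun k => rfl
  have hE1 : ∀ k, (T k).1.Ext (T (k + 1)).1 := fun k => by rw [hTs]; exact hn1 _ _
  have hEm : ∀ k m, (T k).1.Ext (T (k + m)).1 := by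
    intro k m
    induction m with
    | zero => exact State'.Ext.refl _
    | succ m ih => exact ih.trans (hE1 (k + m))
  have hE : ∀ k m, k ≤ m → (T k).1.Ext (T m).1 := by
    intro k m hkm
    obtain ⟨d, rfl⟩ := Nat.exists_eq_add_of_le hkm
    exact hEm k d
  have hgrow : ∀ k, k < (T k).1.n := by
    intro k
    induction k with
    | zero => exact (T 0).2
    | succ k ih =>
      have h2 : (T k).1.n < (T (k + 1)).1.n := by rw [hTs]; exact hn2 _ _
      omega
  set L : Set (Finset ℕ) := {K | ∃ k, K ∈ (T k).1.L} with hL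
  set δ : ℕ → ℕ → ℕ := fun x y => (T (x + y)).1.δ x y with hδ
  have hval : ∀ k x y, x < (T k).1.n → y < (T k).1.n → (T k).1.δ x y = δ x y := by
    intro k x y hx hy
    have h1 := hgrow (x + y)
    rcases le_total k (x + y) with h | h
    · exact ((hE _ _ h).δ x y hx hy).symm
    · exact (hE _ _ h).δ x y (by omega) (by omega)
  have hlt : ∀ k, ∀ K ∈ (T k).1.L, ∀ u ∈ K, u < (T k).1.n := fun k => (T k).1.st.pre.lt
  have hmono : ∀ k m, k ≤ m → (T k).1.n ≤ (T m).1.n := fun k m h => (hE k m h).n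
  refine ⟨L, δ, ⟨?_, ?_, ?_, ?_, ?_, ?_, ?_, ?_, ?_⟩, ?_, ?_⟩
  · rintro K ⟨k, hK⟩
    exact (T k).1.st.pre.card K hK
  · intro x y
    have h1 := hgrow (x + y)
    rw [← hval (x + y) x y (by omega) (by omega), ← hval (x + y) y x (by omega) (by omega)]
    exact (T (x + y)).1.st.pre.symm x y
  · intro x y
    have h1 := hgrow (x + y)
    rw [← hval (x + y) x y (by omega) (by omega)]
    exact (T (x + y)).1.st.pre.zero x y (by omega) (by omega)
  · intro x y
    have h1 := hgrow (x + y)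
    rw [← hval (x + y) x y (by omega) (by omega)]
    exact (T (x + y)).1.st.pre.le x y (by omega) (by omega)
  · rintro x K ⟨k, hK⟩
    have h1 := hgrow (x + k)
    have hK' := (hE k (x + k) (by omega)).L hK
    refine ((T (x + k)).1.st.pre.pat x (by omega) K hK').congr ?_
    intro u hu
    exact (hval (x + k) x u (by omega) (hlt _ K hK' u hu)).symm
  · rintro x y hle K ⟨k, hK⟩ K' ⟨k', hK'⟩ hyK hyK' ⟨g, hg, hgx⟩ ⟨g', hg', hgx'⟩
    set m := x + k + k' with hm
    have h1 := hgrow m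
    have hKm := (hE k m (by omega)).L hK
    have hKm' := (hE k' m (by omega)).L hK'
    have hxm : x < (T m).1.n := by omega
    have hym := hlt m K hKm y hyK
    have hgm := hlt m K hKm g hg
    have hgm' := hlt m K' hKm' g' hg'
    refine (T m).1.st.pre.uniq x y hxm hym ?_ K hKm K' hKm' hyK hyK' ⟨g, hg, ?_⟩ ⟨g', hg', ?_⟩
    · rw [hval m x y hxm hym]; exact hle
    · rw [hval m x y hxm hym, hval m x g hxm hgm]; exact hgx
    · rw [hval m x y hxm hym, hval m x g' hxm hgm']; exact hgx'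
  · intro x y h
    have h1 := hgrow (x + y)
    rw [← hval (x + y) x y (by omega) (by omega)] at h
    obtain ⟨K, hK, h⟩ := (T (x + y)).1.st.col x y (by omega) (by omega) h
    exact ⟨K, ⟨_, hK⟩, h⟩
  · intro x y h
    set k := Nat.pair (Nat.pair x y) (x + y) with hk
    have hk1 : x + y ≤ k := Nat.right_le_pair _ _
    have htask : task k = (x, y) := by
      simp only [task, hk, Nat.unpair_pair]
    have h1 := hgrow k
    have h2 := hn4 (T k) (task k)
    rw [htask] at h2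
    obtain ⟨g, hg, hg1, hg2⟩ := h2 (by simp only; omega) (by simp only; omega)
      (by rw [hval k _ _ (by simp only; omega) (by simp only; omega)]; exact h)
    rw [← htask, ← hTs] at hg hg1 hg2
    rw [htask] at hg1 hg2
    have h3 := hgrow (k + 1)
    exact ⟨g, by rw [← hval (k + 1) x g (by omega) hg]; exact hg1,
      by rw [← hval (k + 1) y g (by omega) hg]; exact hg2⟩
  · intro x
    by_contra hfin
    rw [Set.not_infinite] at hfin
    -- all these lines are present at some stage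
    have hstage : ∃ m, ∀ K ∈ hfin.toFinset, K ∈ (T m).1.L := by
      have : ∀ F : Finset (Finset ℕ), (∀ K ∈ F, K ∈ L) → ∃ m, ∀ K ∈ F, K ∈ (T m).1.L := by
        intro F
        induction F using Finset.induction_on with
        | empty => intro _; exact ⟨0, by simp⟩
        | insert K F _ ih =>
          intro h
          obtain ⟨m, hm⟩ := ih (fun K' hK' => h K' (Finset.mem_insert_of_mem hK'))
          obtain ⟨k, hk⟩ := h K (Finset.mem_insert_self _ _)
          refine ⟨max m k, ?_⟩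
          intro K' hK'
          rw [Finset.mem_insert] at hK'
          rcases hK' with rfl | hK'
          · exact (hE k _ (le_max_right _ _)).L hk
          · exact (hE m _ (le_max_left _ _)).L (hm K' hK')
      refine this _ ?_
      intro K hK
      rw [Set.Finite.mem_toFinset] at hK
      exact hK.1
    obtain ⟨m, hm⟩ := hstage
    set k := Nat.pair (Nat.pair x 0) (x + m) with hk
    have hk1 : x + m ≤ k := Nat.right_le_pair _ _
    have htask : task k = (x, 0) := by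
      simp only [task, hk, Nat.unpair_pair]
    have h1 := hgrow k
    have h2 := hn3 (T k) (task k)
    rw [htask] at h2
    obtain ⟨K, hK1, hK2, hK3⟩ := h2 (by simp only; omega)
    rw [← htask, ← hTs] at hK1
    apply hK3
    apply (hE m k (by omega)).L
    apply hm
    rw [Set.Finite.mem_toFinset]
    exact ⟨⟨k + 1, hK1⟩, hK2⟩
  · intro K hK
    exact ⟨0, hK⟩
  · intro x z hx hz
    exact (hval 0 x z hx hz).symm


end Pool.Agent.Y892.HX
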