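import Pool.Agent.Y892.HX.R5
import Pool.Agent.W290.FrCore

set_option autoImplicit false

/-!
# Full embeddings in semi-finite hexagons: abstract bases
-/

namespace Pool.Agent.Y892.HX

open Pool.Agent.W290.Fr

/-- on the line `K` the function `φ` has a unique minimum and all other values are larger by one -/
def PatX {X M : Type} (on : X → M → Prop) (φ : X → ℕ) (K : M) : Prop :=
  ∃ g, on g K ∧ ∀ u, on u K → u ≠ g → φ u = φ g + 1

/-- the colouring problems on an abstract base -/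
structure BaseX {X M : Type} (s : ℕ) (on : X → M → Prop) : Prop where
  one : ∀ φ : X → ℕ, (∀ u, φ u ≤ 3) → (∀ K, PatX on φ K) →
    ∃ f : X → ℕ, (∀ u, f u < s) ∧
      ∀ K u v, on u K → on v K → u ≠ v → φ u = 3 → φ v = 3 → f u ≠ f v
  two : ∀ φ ψ : X → ℕ, (∀ u, φ u ≤ 3) → (∀ u, ψ u ≤ 3) → (∀ K, PatX on φ K) →
    (∀ K, PatX on ψ K) → (∀ u, φ u = ψ u → φ u = 3) →
    ∃ f : X → ℕ, (∀ u, f u < s - 1) ∧
      ∀ K u v, on u K → on v K → u ≠ v → φ u = 3 → ψ u = 3 → φ v = 3 → ψ v = 3 → f u ≠ f v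
  three : ∀ φ ψ : X → ℕ, (∀ u, φ u ≤ 3) → (∀ u, ψ u ≤ 3) → (∀ K, PatX on φ K) →
    (∀ K, PatX on ψ K) → (∀ u, φ u = 0 → ψ u = 2) → (∀ u, ψ u = 0 → φ u = 2) →
    (∀ u, φ u = 1 → ψ u = 3) → (∀ u, ψ u = 1 → φ u = 3) →
    ∃ f : X → ℕ, (∀ u, f u < s ∧ (φ u = 3 → (ψ u = 1 → f u = 0) ∧ (ψ u = 2 → f u ≠ 0))) ∧
      ∀ K, (∀ u, on u K → ψ u ≠ 0) → ∀ u v, on u K → on v K → u ≠ v → φ u = 3 → φ v = 3 →
        f u ≠ f v

theorem base_of {X M : Type} [Finite X] [Nonempty X] {s : ℕ} {on : X → M → Prop}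
    {D : X → X → ℕ} (H : PreX s on D) (B : BaseX s on) (hs : 1 ≤ s) :
    ∃ (n0 : ℕ) (L0 : Set (Finset ℕ)) (δ0 : ℕ → ℕ → ℕ) (φ : X → ℕ) (ψ : M → Finset ℕ),
      0 < n0 ∧ Pre s n0 L0 δ0 ∧ Col n0 L0 δ0 ∧ BaseOK s n0 L0 ∧ Function.Injective φ ∧
      (∀ x, φ x < n0) ∧ (∀ i < n0, ∃ x, φ x = i) ∧ (∀ K, ψ K ∈ L0) ∧
      (∀ x K, φ x ∈ ψ K ↔ on x K) ∧ Function.Injective ψ := by
  classical
  have := Fintype.ofFinite X
  let e := Fintype.equivFin X
  let φ : X → ℕ := fun x => (e x).val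
  have hφ : Function.Injective φ := fun x y h => e.injective (Fin.ext h)
  have hlt : ∀ x, φ x < Fintype.card X := fun x => (e x).2
  have hsur : ∀ i, i < Fintype.card X → ∃ x, φ x = i := fun i hi =>
    ⟨e.symm ⟨i, hi⟩, by simp [φ]⟩
  let ψ : M → Finset ℕ := fun K => (Finset.univ.filter (fun x => on x K)).image φ
  have hψ : ∀ x K, φ x ∈ ψ K ↔ on x K := by
    intro x K
    simp only [ψ, Finset.mem_image, Finset.mem_filter, Finset.mem_univ, true_and]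
    constructor
    · rintro ⟨y, hy, hxy⟩
      rw [← hφ hxy]; exact hy
    · intro h
      exact ⟨x, h, rfl⟩
  have hψ' : ∀ i K, i ∈ ψ K → ∃ x, on x K ∧ φ x = i := by
    intro i K hi
    simp only [ψ, Finset.mem_image, Finset.mem_filter, Finset.mem_univ, true_and] at hi
    exact hi
  let δ : ℕ → ℕ → ℕ := fun i j =>
    if h : i < Fintype.card X ∧ j < Fintype.card X then D (e.symm ⟨i, h.1⟩) (e.symm ⟨j, h.2⟩)
    else 0
  have hδ : ∀ x y, δ (φ x) (φ y) = D x y := by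
    intro x y
    have h : φ x < Fintype.card X ∧ φ y < Fintype.card X := ⟨hlt x, hlt y⟩
    simp only [δ, h, and_self, dite_true]
    simp [φ]
  have P : Pre s (Fintype.card X) (Set.range ψ) δ := by
    refine ⟨?_, ?_, ?_, ?_, ?_, ?_, ?_⟩
    · rintro _ ⟨K, rfl⟩ i hi
      obtain ⟨x, -, rfl⟩ := hψ' i K hi
      exact hlt x
    · rintro _ ⟨K, rfl⟩
      have h1 : (ψ K).card = (Finset.univ.filter (fun x => on x K)).card :=
        Finset.card_image_of_injective _ hφ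
      rw [h1, ← H.card K, Set.ncard_eq_toFinset_card']
      congr 1
      ext x
      simp
    · intro i j
      by_cases hi : i < Fintype.card X ∧ j < Fintype.card X
      · have hj : j < Fintype.card X ∧ i < Fintype.card X := ⟨hi.2, hi.1⟩
        simp only [δ, hi, and_self, dite_true]
        exact H.symm _ _
      · have hj : ¬ (j < Fintype.card X ∧ i < Fintype.card X) := fun h => hi ⟨h.2, h.1⟩
        simp only [δ, hi, hj, dite_false]
    · intro i j hi hj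
      obtain ⟨x, rfl⟩ := hsur i hi
      obtain ⟨y, rfl⟩ := hsur j hj
      rw [hδ, H.zero]
      exact ⟨fun h => by rw [h], fun h => hφ h⟩
    · intro i j hi hj
      obtain ⟨x, rfl⟩ := hsur i hi
      obtain ⟨y, rfl⟩ := hsur j hj
      rw [hδ]; exact H.le x y
    · rintro i hi _ ⟨K, rfl⟩
      obtain ⟨x, rfl⟩ := hsur i hi
      obtain ⟨g, hg, hgK⟩ := H.pat x K
      refine ⟨φ g, (hψ g K).2 hg, ?_⟩
      intro j hj hne
      obtain ⟨u, hu, rfl⟩ := hψ' j K hj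
      rw [hδ, hδ]
      exact hgK u hu (fun h => hne (by rw [h]))
    · rintro i j hi hj hle _ ⟨K, rfl⟩ _ ⟨K', rfl⟩ hyK hyK' ⟨g, hg, hgx⟩ ⟨g', hg', hgx'⟩
      obtain ⟨x, rfl⟩ := hsur i hi
      obtain ⟨y, rfl⟩ := hsur j hj
      obtain ⟨u, hu, rfl⟩ := hψ' g K hg
      obtain ⟨u', hu', rfl⟩ := hψ' g' K' hg'
      rw [hδ] at hle
      rw [hδ, hδ] at hgx hgx'
      rw [hψ] at hyK hyK'
      rw [H.uniq x y hle K K' hyK hyK' ⟨u, hu, hgx⟩ ⟨u', hu', hgx'⟩]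
  have C : Col (Fintype.card X) (Set.range ψ) δ := by
    intro i j hi hj h1
    obtain ⟨x, rfl⟩ := hsur i hi
    obtain ⟨y, rfl⟩ := hsur j hj
    rw [hδ] at h1
    obtain ⟨K, h1, h2⟩ := H.col x y h1
    exact ⟨ψ K, ⟨K, rfl⟩, (hψ x K).2 h1, (hψ y K).2 h2⟩
  -- transfer of patterns
  have hpat : ∀ F : ℕ → ℕ, (∀ K ∈ Set.range ψ, Pat F K) → ∀ K, PatX on (fun x => F (φ x)) K := by
    intro F hF K
    obtain ⟨g, hg, hgK⟩ := hF (ψ K) ⟨K, rfl⟩
    obtain ⟨x, hx, rfl⟩ := hψ' g K hg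
    refine ⟨x, hx, ?_⟩
    intro u hu hne
    exact hgK (φ u) ((hψ u K).2 hu) (fun h => hne (hφ h))
  -- transfer of colourings
  let bk : ℕ → X := fun i => if h : i < Fintype.card X then e.symm ⟨i, h⟩ else Classical.arbitrary X
  have hbk : ∀ x, bk (φ x) = x := by
    intro x
    simp only [bk, hlt x, dite_true]
    simp [φ]
  have BO : BaseOK s (Fintype.card X) (Set.range ψ) := by
    refine ⟨P.lt, ?_, ?_, ?_⟩
    · intro F hF hFp
      obtain ⟨f, h1, h2⟩ := B.one (fun x => F (φ x)) (fun x => hF _ (hlt x)) (hpat F hFp)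
      refine ⟨fun i => f (bk i), fun i _ => h1 _, ?_⟩
      rintro _ ⟨K, rfl⟩ i hi j hj hij h3 h3'
      obtain ⟨x, hx, rfl⟩ := hψ' i K hi
      obtain ⟨y, hy, rfl⟩ := hψ' j K hj
      simp only [hbk]
      exact h2 K x y hx hy (fun h => hij (by rw [h])) h3 h3'
    · intro F G hF hG hFp hGp hFG
      obtain ⟨f, h1, h2⟩ := B.two (fun x => F (φ x)) (fun x => G (φ x)) (fun x => hF _ (hlt x))
        (fun x => hG _ (hlt x)) (hpat F hFp) (hpat G hGp) (fun x => hFG _ (hlt x))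
      refine ⟨fun i => f (bk i), fun i _ => h1 _, ?_⟩
      rintro _ ⟨K, rfl⟩ i hi j hj hij h3 h3' h4 h4'
      obtain ⟨x, hx, rfl⟩ := hψ' i K hi
      obtain ⟨y, hy, rfl⟩ := hψ' j K hj
      simp only [hbk]
      exact h2 K x y hx hy (fun h => hij (by rw [h])) h3 h3' h4 h4'
    · intro F G hF hG hFp hGp h00 h01 h10 h11
      obtain ⟨f, h1, h2⟩ := B.three (fun x => F (φ x)) (fun x => G (φ x)) (fun x => hF _ (hlt x))
        (fun x => hG _ (hlt x)) (hpat F hFp) (hpat G hGp) (fun x => h00 _ (hlt x))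
        (fun x => h01 _ (hlt x)) (fun x => h10 _ (hlt x)) (fun x => h11 _ (hlt x))
      refine ⟨fun i => f (bk i), ?_, ?_⟩
      · intro i hi
        obtain ⟨x, rfl⟩ := hsur i hi
        simp only [hbk]
        exact h1 x
      · rintro _ ⟨K, rfl⟩ hK i hi j hj hij h3 h3'
        obtain ⟨x, hx, rfl⟩ := hψ' i K hi
        obtain ⟨y, hy, rfl⟩ := hψ' j K hj
        simp only [hbk]
        refine h2 K ?_ x y hx hy (fun h => hij (by rw [h])) h3 h3'
        intro u hu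
        exact hK (φ u) ((hψ u K).2 hu)
  refine ⟨_, _, δ, φ, ψ, Fintype.card_pos, P, C, BO, hφ, hlt, hsur, fun K => ⟨K, rfl⟩, hψ, ?_⟩
  intro K K' hKK
  have hcard := P.card (ψ K) ⟨K, rfl⟩
  obtain ⟨i, hi, j, hj, hij⟩ := Finset.one_lt_card.1 (by omega : 1 < (ψ K).card)
  obtain ⟨x, hx, rfl⟩ := hψ' i K hi
  obtain ⟨y, hy, rfl⟩ := hψ' j K hj
  have hx' : on x K' := by rw [← hψ, ← hKK, hψ]; exact hx
  have hy' : on y K' := by rw [← hψ, ← hKK, hψ]; exact hy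
  have hxy : x ≠ y := fun h => hij (by rw [h])
  have h1 : D x y = 1 := by
    rw [← hδ]
    exact P.on_line (K := ψ K) ⟨K, rfl⟩ hi hj (Ne.symm hij)
  have h0 : D x x = 0 := (H.zero x x).2 rfl
  exact H.uniq x y (by omega) K K' hy hy' ⟨x, hx, by omega⟩ ⟨x, hx', by omega⟩

/-- **Full embedding.** -/
theorem embed_full {X M : Type} [Finite X] [Nonempty X] {s : ℕ} {on : X → M → Prop}
    {D : X → X → ℕ} (H : PreX s on D) (B : BaseX s on) (hs : 4 ≤ s) :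
    ∃ (L : Set (Finset ℕ)) (δ : ℕ → ℕ → ℕ), Lim s L δ ∧
      ∃ (φ : X → ℕ) (ψ : M → {K // K ∈ L}), Function.Injective φ ∧ Function.Injective ψ ∧
        (∀ x K, inc L (φ x) (ψ K) ↔ on x K) ∧ ∀ u K, inc L u (ψ K) → ∃ x, φ x = u := by
  obtain ⟨n0, L0, δ0, φ, ψ, h0, P, C, BO, hφ, hlt, hsur, hψL, hψ, hψi⟩ := base_of H B (by omega)
  let T₀ : State' s n0 L0 := ⟨n0, L0, δ0, ⟨P, C, le_rfl, subset_rfl, by
    intro V C f0 _ _ hV hC
    exact ⟨f0, fun _ _ => rfl, hV, hC⟩⟩⟩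
  obtain ⟨L, δ, HL, hsub, -⟩ := T₀.exists_lim BO hs h0
  refine ⟨L, δ, HL, φ, fun K => ⟨ψ K, hsub (hψL K)⟩, hφ, ?_, ?_, ?_⟩
  · intro K K' h
    exact hψi (congrArg Subtype.val h)
  · intro x K
    exact hψ x K
  · intro u K hu
    have hu' : u ∈ ψ K := hu
    exact hsur u (BO.lt _ (hψL K) u hu')

end Pool.Agent.Y892.HX
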